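import Mathlib
import Pool.Agent.T2h34.CP.Lin
import Pool.Agent.H789R5.RF.Rank

set_option autoImplicit false
set_option linter.unusedSectionVars false

/-! Frameworks on a grid whose rows lie in `i`-dimensional plates and whose columns lie in
`(c+1)`-dimensional plates of `ℝ^(i+c)`. -/

namespace Pool.Agent.T2h34.GR

open Matrix Pool.Agent.H283R2.DR Pool.Agent.H283R2.DR.TA Pool.Agent.H789R5

variable {V W : Type} {i c : ℕ}

theorem append_add (a a' : Fin i → ℝ) (b b' : Fin c → ℝ) :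
    Fin.append (a + a') (b + b') = Fin.append a b + Fin.append a' b' := by
  funext k
  refine Fin.addCases (fun k => ?_) (fun k => ?_) k
  · simp
  · simp

theorem append_smul (s : ℝ) (a : Fin i → ℝ) (b : Fin c → ℝ) :
    Fin.append (s • a) (s • b) = s • Fin.append a b := by
  funext k
  refine Fin.addCases (fun k => ?_) (fun k => ?_) k
  · simp
  · simp

theorem append_sub (a a' : Fin i → ℝ) (b b' : Fin c → ℝ) :
    Fin.append (a - a') (b - b') = Fin.append a b - Fin.append a' b' := by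
  funext k
  refine Fin.addCases (fun k => ?_) (fun k => ?_) k
  · simp
  · simp

/-- the first part of a vector -/
def hd (v : Fin (i + c) → ℝ) : Fin i → ℝ := fun k => v (Fin.castAdd c k)

/-- the last part of a vector -/
def tl (v : Fin (i + c) → ℝ) : Fin c → ℝ := fun k => v (Fin.natAdd i k)

theorem append_hd_tl (v : Fin (i + c) → ℝ) : Fin.append (hd v) (tl v) = v := by
  funext k
  refine Fin.addCases (fun k => ?_) (fun k => ?_) k
  · simp [hd]
  · simp [tl]

theorem append_dot (a : Fin i → ℝ) (b : Fin c → ℝ) (v : Fin (i + c) → ℝ) :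
    Fin.append a b ⬝ᵥ v = a ⬝ᵥ hd v + b ⬝ᵥ tl v := by
  simp only [dotProduct, Fin.sum_univ_add, Fin.append_left, Fin.append_right, hd, tl]

theorem hd_sub (v v' : Fin (i + c) → ℝ) : hd (v - v') = hd v - hd v' := rfl

theorem tl_sub (v v' : Fin (i + c) → ℝ) : tl (v - v') = tl v - tl v' := rfl

theorem dot_vecMul' (α : Matrix (Fin c) (Fin i) ℝ) (e : Fin i → ℝ) (v : Fin c → ℝ) :
    e ⬝ᵥ (v ᵥ* α) = (α *ᵥ e) ⬝ᵥ v := by
  rw [dotProduct_comm, ← dotProduct_mulVec, dotProduct_comm]

theorem skew_dot {n : ℕ} {A : Matrix (Fin n) (Fin n) ℝ} (hA : Aᵀ = -A) (x y : Fin n → ℝ) :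
    x ⬝ᵥ (A *ᵥ y) = - (y ⬝ᵥ (A *ᵥ x)) := by
  rw [dotProduct_mulVec, ← mulVec_transpose, hA, neg_mulVec, neg_dotProduct, dotProduct_comm]

theorem skew_self {n : ℕ} {A : Matrix (Fin n) (Fin n) ℝ} (hA : Aᵀ = -A) (x : Fin n → ℝ) :
    x ⬝ᵥ (A *ᵥ x) = 0 := by
  have := skew_dot hA x x
  linarith

/-- an infinitesimal isometry of `ℝ^(c+1)` in coordinates -/
theorem skew_cons {A : Matrix (Fin (c + 1)) (Fin (c + 1)) ℝ} (hA : Aᵀ = -A)
    (b : Fin (c + 1) → ℝ) :
    ∃ (κ : ℝ) (s R : Fin c → ℝ) (S : Sk c), ∀ (t : ℝ) (y : Fin c → ℝ),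
      A *ᵥ vecCons t y + b = vecCons (κ - s ⬝ᵥ y) (t • s + (S : Matrix (Fin c) (Fin c) ℝ) *ᵥ y + R) := by
  have hA' : ∀ k l, A k l = - A l k := by
    intro k l
    have := congrFun (congrFun hA l) k
    simpa using this
  refine ⟨b 0, fun k => A k.succ 0, fun k => b k.succ,
    ⟨A.submatrix Fin.succ Fin.succ, ?_⟩, ?_⟩
  · show _ = _
    ext k l
    simp only [transpose_apply, submatrix_apply]
    exact hA' _ _
  · intro t y
    funext k
    refine Fin.cases ?_ (fun k => ?_) k
    · have h0 : A 0 0 = 0 := by have := hA' 0 0; linarith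
      simp only [Pi.add_apply, mulVec, dotProduct, Fin.sum_univ_succ, cons_val_zero, cons_val_succ,
        h0, zero_mul, zero_add]
      have : ∑ k : Fin c, A 0 k.succ * y k = - ∑ k : Fin c, A k.succ 0 * y k := by
        rw [← Finset.sum_neg_distrib]
        refine Finset.sum_congr rfl fun k _ => ?_
        rw [hA' 0 k.succ]
        ring
      rw [this]
      ring
    · simp only [Pi.add_apply, mulVec, dotProduct, Fin.sum_univ_succ, cons_val_zero, cons_val_succ,
        Pi.smul_apply, smul_eq_mul, submatrix_apply]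
      ring

/-- the space of infinitesimal isometries of `ℝ^(c+1)` in coordinates -/
abbrev Col (c : ℕ) := ℝ × ((Fin c → ℝ) × ((Fin c → ℝ) × Sk c))

/-- the parameters of all rows and columns -/
abbrev Par (V W : Type) (i c : ℕ) := (W → Sk i × (Fin i → ℝ)) × (V → Col c)

section fix

variable (e : V → Fin i → ℝ) (α : W → Matrix (Fin c) (Fin i) ℝ) (x : V → Fin i → ℝ)
  (β : W → Fin c → ℝ) (t : V × W → ℝ)

/-- the first coordinates of the points -/
def xi (p : V × W) : Fin i → ℝ := x p.1 + t p • e p.1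

/-- the last coordinates of the points -/
def eta (p : V × W) : Fin c → ℝ := α p.2 *ᵥ xi e x t p + β p.2

/-- the placement of the grid -/
def plc (p : V × W) : Fin (i + c) → ℝ := Fin.append (xi e x t p) (eta e α x β t p)

theorem row_motion {X : SimpleGraph (V × W)} {v : V × W → Fin (i + c) → ℝ}
    (hv : IsMotion X (plc e α x β t) v) (h : W) :
    IsMotion (X.comap fun g => (g, h)) (fun g => xi e x t (g, h))
      (fun g => hd (v (g, h)) + tl (v (g, h)) ᵥ* α h) := by
  intro g g' hadj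
  have h0 := hv (g, h) (g', h) hadj
  unfold plc at h0
  rw [← append_sub, append_dot] at h0
  have h1 : eta e α x β t (g, h) - eta e α x β t (g', h) =
      α h *ᵥ (xi e x t (g, h) - xi e x t (g', h)) := by
    unfold eta
    rw [mulVec_sub]
    abel
  rw [h1, hd_sub, tl_sub, ← dot_vecMul', sub_vecMul] at h0
  rw [← h0, ← dotProduct_add]
  congr 1
  beta_reduce
  rw [add_sub_add_comm]

theorem col_motion {X : SimpleGraph (V × W)} {v : V × W → Fin (i + c) → ℝ}
    (hv : IsMotion X (plc e α x β t) v) (g : V) :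
    IsMotion (X.comap fun h => (g, h)) (fun h => vecCons (t (g, h)) (eta e α x β t (g, h)))
      (fun h => vecCons (e g ⬝ᵥ hd (v (g, h))) (tl (v (g, h)))) := by
  intro h h' hadj
  have h0 := hv (g, h) (g, h') hadj
  unfold plc at h0
  rw [← append_sub, append_dot] at h0
  have h1 : xi e x t (g, h) - xi e x t (g, h') = (t (g, h) - t (g, h')) • e g := by
    unfold xi
    rw [sub_smul]
    abel
  rw [h1, hd_sub, tl_sub, smul_dotProduct, dotProduct_sub, smul_eq_mul] at h0
  rw [← h0]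
  simp only [dotProduct, Fin.sum_univ_succ, Pi.sub_apply, cons_val_zero, cons_val_succ]

/-- the compatibility conditions of the rows and columns -/
noncomputable def Psi : Par V W i c →ₗ[ℝ] (V × W → ℝ) where
  toFun z p := e p.1 ⬝ᵥ (((z.1 p.2).1 : Matrix (Fin i) (Fin i) ℝ) *ᵥ x p.1 + (z.1 p.2).2) -
    ((z.2 p.1).1 - (z.2 p.1).2.1 ⬝ᵥ (α p.2 *ᵥ x p.1 + β p.2) +
      (α p.2 *ᵥ e p.1) ⬝ᵥ (((z.2 p.1).2.2.2 : Matrix (Fin c) (Fin c) ℝ) *ᵥ
        (α p.2 *ᵥ x p.1 + β p.2) + (z.2 p.1).2.2.1))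
  map_add' := by
    intro z z'
    funext p
    simp only [Prod.fst_add, Prod.snd_add, Pi.add_apply, Submodule.coe_add, add_mulVec,
      dotProduct_add, add_dotProduct]
    ring
  map_smul' := by
    intro s z
    funext p
    simp only [Prod.smul_fst, Prod.smul_snd, Pi.smul_apply, Submodule.coe_smul, smul_mulVec,
      dotProduct_add, smul_dotProduct, dotProduct_smul, smul_eq_mul, RingHom.id_apply]
    ring

/-- the first part of the velocities, up to the last part -/
noncomputable def rv : Par V W i c →ₗ[ℝ] (V × W → Fin i → ℝ) where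
  toFun z p := ((z.1 p.2).1 : Matrix (Fin i) (Fin i) ℝ) *ᵥ xi e x t p + (z.1 p.2).2
  map_add' := by
    intro z z'
    funext p
    simp only [Prod.fst_add, Prod.snd_add, Pi.add_apply, Submodule.coe_add, add_mulVec]
    abel
  map_smul' := by
    intro s z
    funext p
    simp only [Prod.smul_fst, Prod.smul_snd, Pi.smul_apply, Submodule.coe_smul, smul_mulVec,
      RingHom.id_apply, smul_add]

/-- the last part of the velocities -/
noncomputable def cv : Par V W i c →ₗ[ℝ] (V × W → Fin c → ℝ) where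
  toFun z p := t p • (z.2 p.1).2.1 + ((z.2 p.1).2.2.2 : Matrix (Fin c) (Fin c) ℝ) *ᵥ
    eta e α x β t p + (z.2 p.1).2.2.1
  map_add' := by
    intro z z'
    funext p
    simp only [Prod.fst_add, Prod.snd_add, Pi.add_apply, Submodule.coe_add, add_mulVec, smul_add]
    abel
  map_smul' := by
    intro s z
    funext p
    simp only [Prod.smul_fst, Prod.smul_snd, Pi.smul_apply, Submodule.coe_smul, smul_mulVec,
      RingHom.id_apply, smul_add, smul_comm s (t p)]

/-- the velocities -/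
noncomputable def Phi : Par V W i c →ₗ[ℝ] (V × W → Fin (i + c) → ℝ) where
  toFun z p := Fin.append (rv e x t z p - cv e α x β t z p ᵥ* α p.2) (cv e α x β t z p)
  map_add' := by
    intro z z'
    funext p
    rw [map_add, map_add, Pi.add_apply, Pi.add_apply, Pi.add_apply, ← append_add, add_vecMul]
    congr 1
    abel
  map_smul' := by
    intro s z
    funext p
    rw [map_smul, map_smul, Pi.smul_apply, Pi.smul_apply, Pi.smul_apply, RingHom.id_apply,
      ← append_smul, smul_vecMul, smul_sub]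

/-- the dimension of the space of motions is bounded by the compatibility conditions -/
theorem mo_le_ker [Finite V] [Finite W] {X : SimpleGraph (V × W)}
    (hrow : ∀ h, InfRigid (X.comap fun g => (g, h)) (fun g => xi e x t (g, h)))
    (hcol : ∀ g, InfRigid (X.comap fun h => (g, h))
      (fun h => vecCons (t (g, h)) (eta e α x β t (g, h)))) :
    mo X (plc e α x β t) ≤ Module.finrank ℝ (LinearMap.ker (Psi e α x β)) := by
  have := Fintype.ofFinite V
  have := Fintype.ofFinite W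
  refine le_trans (Submodule.finrank_mono ?_) (Submodule.finrank_map_le (Phi e α x β t) _)
  intro v hv
  rw [mem_mot] at hv
  have h1 : ∀ h, ∃ z : Sk i × (Fin i → ℝ), ∀ g, hd (v (g, h)) + tl (v (g, h)) ᵥ* α h =
      (z.1 : Matrix (Fin i) (Fin i) ℝ) *ᵥ xi e x t (g, h) + z.2 := by
    intro h
    obtain ⟨A, b, hA, hb⟩ := hrow h _ (row_motion e α x β t hv h)
    exact ⟨(⟨A, hA⟩, b), hb⟩
  have h2 : ∀ g, ∃ z : Col c, ∀ h, vecCons (e g ⬝ᵥ hd (v (g, h))) (tl (v (g, h))) =
      vecCons (z.1 - z.2.1 ⬝ᵥ eta e α x β t (g, h)) (t (g, h) • z.2.1 +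
        (z.2.2.2 : Matrix (Fin c) (Fin c) ℝ) *ᵥ eta e α x β t (g, h) + z.2.2.1) := by
    intro g
    obtain ⟨A, b, hA, hb⟩ := hcol g _ (col_motion e α x β t hv g)
    obtain ⟨κ, s, R, S, hS⟩ := skew_cons hA b
    exact ⟨(κ, s, R, S), fun h => by rw [hb h, hS]⟩
  choose σ hσ using h1
  choose ρ hρ using h2
  have hρ0 : ∀ g h, e g ⬝ᵥ hd (v (g, h)) = (ρ g).1 - (ρ g).2.1 ⬝ᵥ eta e α x β t (g, h) :=
    fun g h => congrFun (hρ g h) 0
  have hρ1 : ∀ g h, tl (v (g, h)) = t (g, h) • (ρ g).2.1 +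
        ((ρ g).2.2.2 : Matrix (Fin c) (Fin c) ℝ) *ᵥ eta e α x β t (g, h) + (ρ g).2.2.1 := by
    intro g h
    have := congrArg vecTail (hρ g h)
    rwa [tail_cons, tail_cons] at this
  refine ⟨(σ, ρ), ?_, ?_⟩
  · show _ ∈ LinearMap.ker _
    rw [LinearMap.mem_ker]
    funext p
    obtain ⟨g, h⟩ := p
    show e g ⬝ᵥ (((σ h).1 : Matrix (Fin i) (Fin i) ℝ) *ᵥ x g + (σ h).2) -
      ((ρ g).1 - (ρ g).2.1 ⬝ᵥ (α h *ᵥ x g + β h) +
      (α h *ᵥ e g) ⬝ᵥ (((ρ g).2.2.2 : Matrix (Fin c) (Fin c) ℝ) *ᵥ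
        (α h *ᵥ x g + β h) + (ρ g).2.2.1)) = 0
    have e1 := congrArg (fun w => e g ⬝ᵥ w) (hσ h g)
    simp only [dotProduct_add, dot_vecMul'] at e1
    rw [hρ0 g h, hρ1 g h] at e1
    have e2 : xi e x t (g, h) = x g + t (g, h) • e g := rfl
    have e3 : eta e α x β t (g, h) = (α h *ᵥ x g + β h) + t (g, h) • (α h *ᵥ e g) := by
      show α h *ᵥ (x g + t (g, h) • e g) + β h = _
      rw [mulVec_add, mulVec_smul]
      abel
    rw [e3, e2] at e1
    have s1 := skew_self (σ h).1.2 (e g)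
    have s2 := skew_self (ρ g).2.2.2.2 (α h *ᵥ e g)
    simp only [mulVec_add, mulVec_smul, dotProduct_add, dotProduct_smul, smul_eq_mul] at e1 ⊢
    rw [s1, s2, dotProduct_comm (ρ g).2.1 (α h *ᵥ e g)] at e1
    linarith
  · funext p
    obtain ⟨g, h⟩ := p
    show Fin.append (rv e x t (σ, ρ) (g, h) - cv e α x β t (σ, ρ) (g, h) ᵥ* α h)
      (cv e α x β t (σ, ρ) (g, h)) = v (g, h)
    have e1 : cv e α x β t (σ, ρ) (g, h) = tl (v (g, h)) := (hρ1 g h).symm
    have e2 : rv e x t (σ, ρ) (g, h) = hd (v (g, h)) + tl (v (g, h)) ᵥ* α h := (hσ h g).symm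
    rw [e1, e2, add_sub_cancel_right, append_hd_tl]

end fix

end Pool.Agent.T2h34.GR
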