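import Mathlib
import Pool.Agent.T2h34.GR.Scr

set_option autoImplicit false
set_option linter.unusedSectionVars false

/-! The special position of the plates. -/

namespace Pool.Agent.T2h34.GR

open Matrix Pool.Agent.H283R2.DR Pool.Agent.H283R2.DR.TA Pool.Agent.H789R5

variable {V W : Type} {i c : ℕ}

/-! ### Test configurations -/

/-- value of the compatibility function, `n = (κ, P, R, S)` -/
noncomputable def NN (n : Col c) (u w : Fin c → ℝ) : ℝ :=
  n.1 + n.2.1 ⬝ᵥ u + n.2.2.1 ⬝ᵥ w + w ⬝ᵥ ((n.2.2.2 : Matrix (Fin c) (Fin c) ℝ) *ᵥ u)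

/-- the indices of the test configurations -/
abbrev TI (i c : ℕ) := Unit ⊕ ((Fin (i + 1) × Fin c) ⊕ (Fin i × {z : Fin c × Fin c // z.1 < z.2}))

/-- the test configurations -/
noncomputable def tp : TI i c → Fin (i + 1) → Fin c → ℝ
  | Sum.inl _ => 0
  | Sum.inr (Sum.inl (m, r)) => Pi.single m (Pi.single r 1)
  | Sum.inr (Sum.inr (n, z)) => fun m =>
      Pi.single z.1.1 1 + ((m : ℝ) ^ ((n : ℕ) + 1)) • Pi.single z.1.2 1

theorem single_skew {A : Matrix (Fin c) (Fin c) ℝ} (hA : Aᵀ = -A) {r r' : Fin c}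
    (s s' : ℝ) :
    (Pi.single r 1 + s • Pi.single r' 1 : Fin c → ℝ) ⬝ᵥ
      (A *ᵥ (Pi.single r 1 + s' • Pi.single r' 1)) = A r r' * (s' - s) := by
  have hA' : ∀ k l, A k l = - A l k := by
    intro k l
    have := congrFun (congrFun hA l) k
    simpa using this
  have h1 := hA' r r
  have h2 := hA' r' r'
  have h3 := hA' r' r
  simp only [mulVec_add, mulVec_smul, mulVec_single_one, dotProduct_add, add_dotProduct,
    smul_dotProduct, dotProduct_smul, smul_eq_mul, single_one_dotProduct, col_apply]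
  have h4 : A r r = 0 := by linarith
  have h5 : A r' r' = 0 := by linarith
  rw [h4, h5, h3]
  ring

/-- Vandermonde -/
theorem vand {k : Fin (i + 1)} {θ : Fin (i + 1) → ℝ}
    (h : ∀ n : Fin i, ∑ m, θ m * (((k : ℕ) : ℝ) ^ ((n : ℕ) + 1) - ((m : ℕ) : ℝ) ^ ((n : ℕ) + 1)) = 0) :
    ∀ m, m ≠ k → θ m = 0 := by
  have hinj : Function.Injective (fun m : Fin (i + 1) => ((m : ℕ) : ℝ)) := by
    intro a b hab
    exact Fin.ext (Nat.cast_injective hab)
  have h1 := Matrix.eq_zero_of_forall_pow_sum_mul_pow_eq_zero (R := ℝ) (n := i + 1)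
    (f := fun m : Fin (i + 1) => ((m : ℕ) : ℝ))
    (v := fun m => θ m - if m = k then ∑ m', θ m' else 0) hinj (by
      intro n
      simp only [sub_mul, Finset.sum_sub_distrib, ite_mul, zero_mul, Finset.sum_ite_eq',
        Finset.mem_univ, if_true]
      refine Fin.cases ?_ (fun n => ?_) n
      · simp
      · have := h n
        simp only [mul_sub, Finset.sum_sub_distrib, ← Finset.sum_mul] at this
        simp only [Fin.val_succ]
        linarith)
  intro m hm
  have := congrFun h1 m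
  simpa [hm] using this

/-- the coefficients of the compatibility function vanish -/
theorem coef {k : Fin (i + 1)} {lam : ℝ} {n0 : Col c} {n : Fin (i + 1) → Col c}
    (hD : ∀ τ : TI i c, NN n0 (tp τ k) (∑ m, lam • tp τ m) + ∑ m, NN (n m) (tp τ k) (tp τ m) = 0) :
    (n0.1 + ∑ m, (n m).1 = 0) ∧ (∀ m, m ≠ k → lam • n0.2.2.1 + (n m).2.2.1 = 0) ∧
      ((n0.2.1 + ∑ m, (n m).2.1) + (lam • n0.2.2.1 + (n k).2.2.1) = 0) ∧
      (∀ m, m ≠ k → lam • n0.2.2.2 + (n m).2.2.2 = 0) := by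
  set K := n0.1 + ∑ m, (n m).1 with hK
  set Pk := n0.2.1 + ∑ m, (n m).2.1 with hPk
  set R : Fin (i + 1) → Fin c → ℝ := fun m => lam • n0.2.2.1 + (n m).2.2.1 with hR
  set Θ : Fin (i + 1) → Sk c := fun m => lam • n0.2.2.2 + (n m).2.2.2 with hΘ
  have hexp : ∀ a : Fin (i + 1) → Fin c → ℝ,
      NN n0 (a k) (∑ m, lam • a m) + ∑ m, NN (n m) (a k) (a m) =
        K + Pk ⬝ᵥ a k + ∑ m, R m ⬝ᵥ a m +
          ∑ m, a m ⬝ᵥ ((Θ m : Matrix (Fin c) (Fin c) ℝ) *ᵥ a k) := by
    intro a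
    have e1 : Pk ⬝ᵥ a k = n0.2.1 ⬝ᵥ a k + ∑ m, (n m).2.1 ⬝ᵥ a k := by
      rw [hPk, add_dotProduct, sum_dotProduct]
    have e2 : ∑ m, R m ⬝ᵥ a m = n0.2.2.1 ⬝ᵥ (∑ m, lam • a m) + ∑ m, (n m).2.2.1 ⬝ᵥ a m := by
      rw [dotProduct_sum, ← Finset.sum_add_distrib]
      refine Finset.sum_congr rfl fun m _ => ?_
      rw [hR]
      simp only [add_dotProduct, smul_dotProduct, dotProduct_smul]
    have e3 : ∑ m, a m ⬝ᵥ ((Θ m : Matrix (Fin c) (Fin c) ℝ) *ᵥ a k) =
        (∑ m, lam • a m) ⬝ᵥ ((n0.2.2.2 : Matrix (Fin c) (Fin c) ℝ) *ᵥ a k) +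
        ∑ m, a m ⬝ᵥ (((n m).2.2.2 : Matrix (Fin c) (Fin c) ℝ) *ᵥ a k) := by
      rw [sum_dotProduct, ← Finset.sum_add_distrib]
      refine Finset.sum_congr rfl fun m _ => ?_
      rw [hΘ]
      simp only [Submodule.coe_add, Submodule.coe_smul, add_mulVec, smul_mulVec, dotProduct_add,
        dotProduct_smul, smul_dotProduct]
    unfold NN
    rw [e1, e2, e3]
    simp only [Finset.sum_add_distrib]
    ring
  have hD' : ∀ τ : TI i c, K + Pk ⬝ᵥ tp τ k + ∑ m, R m ⬝ᵥ tp τ m +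
          ∑ m, tp τ m ⬝ᵥ ((Θ m : Matrix (Fin c) (Fin c) ℝ) *ᵥ tp τ k) = 0 := by
    intro τ
    rw [← hexp]
    exact hD τ
  have h0 : K = 0 := by
    have := hD' (Sum.inl ())
    simpa [tp] using this
  have hRm : ∀ m, m ≠ k → R m = 0 := by
    intro m hm
    funext r
    have := hD' (Sum.inr (Sum.inl (m, r)))
    have e1 : (Pi.single m (Pi.single r 1) : Fin (i + 1) → Fin c → ℝ) k = 0 := by
      rw [Pi.single_apply, if_neg (Ne.symm hm)]
    simp only [tp] at this
    rw [e1, h0] at this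
    simp only [dotProduct_zero, mulVec_zero, Finset.sum_const_zero, add_zero, zero_add] at this
    rw [Finset.sum_eq_single m (fun m' _ hm' => by
      rw [Pi.single_apply, if_neg hm', dotProduct_zero]) (fun h => absurd (Finset.mem_univ _) h),
      Pi.single_eq_same, dotProduct_single_one] at this
    exact this
  have hPR : Pk + R k = 0 := by
    funext r
    have := hD' (Sum.inr (Sum.inl (k, r)))
    simp only [tp] at this
    rw [h0, Finset.sum_eq_single k (fun m' _ hm' => by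
      rw [Pi.single_apply, if_neg hm', dotProduct_zero]) (fun h => absurd (Finset.mem_univ _) h),
      Finset.sum_eq_single k (fun m' _ hm' => by
      rw [Pi.single_apply, if_neg hm', zero_dotProduct]) (fun h => absurd (Finset.mem_univ _) h),
      Pi.single_eq_same, dotProduct_single_one, dotProduct_single_one,
      skew_self (Θ k).2] at this
    simpa using this
  refine ⟨h0, hRm, hPR, ?_⟩
  -- the quadratic part
  have hq : ∀ (n' : Fin i) (z : {z : Fin c × Fin c // z.1 < z.2}),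
      ∑ m, (Θ m : Matrix (Fin c) (Fin c) ℝ) z.1.1 z.1.2 *
        (((k : ℕ) : ℝ) ^ ((n' : ℕ) + 1) - ((m : ℕ) : ℝ) ^ ((n' : ℕ) + 1)) = 0 := by
    intro n' z
    have := hD' (Sum.inr (Sum.inr (n', z)))
    have e1 : ∑ m, R m ⬝ᵥ tp (Sum.inr (Sum.inr (n', z))) m =
        R k ⬝ᵥ tp (Sum.inr (Sum.inr (n', z))) k :=
      Finset.sum_eq_single k (fun m' _ hm' => by rw [hRm m' hm', zero_dotProduct])
        (fun h => absurd (Finset.mem_univ _) h)
    rw [h0, e1, zero_add, ← add_dotProduct, hPR, zero_dotProduct, zero_add] at this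
    rw [← this]
    refine Finset.sum_congr rfl fun m _ => ?_
    simp only [tp]
    rw [single_skew (Θ m).2]
  intro m hm
  apply Subtype.ext
  have hA' : ∀ k l, (Θ m : Matrix (Fin c) (Fin c) ℝ) k l = - (Θ m : Matrix (Fin c) (Fin c) ℝ) l k := by
    intro k l
    have h1 : (Θ m : Matrix (Fin c) (Fin c) ℝ)ᵀ = - (Θ m : Matrix (Fin c) (Fin c) ℝ) := (Θ m).2
    have := congrFun (congrFun h1 l) k
    simpa using this
  have key : ∀ r r', r < r' → (Θ m : Matrix (Fin c) (Fin c) ℝ) r r' = 0 := by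
    intro r r' h
    exact vand (θ := fun m => (Θ m : Matrix (Fin c) (Fin c) ℝ) r r')
      (fun n' => hq n' ⟨(r, r'), h⟩) m hm
  ext r r'
  show (Θ m : Matrix (Fin c) (Fin c) ℝ) r r' = 0
  rcases lt_trichotomy r r' with h | h | h
  · exact key r r' h
  · subst h
    have := hA' r r
    linarith
  · rw [hA', key r' r h, neg_zero]

end Pool.Agent.T2h34.GR
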