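import Mathlib
import Pool.Agent.T2h34.GR.Spec

set_option autoImplicit false
set_option linter.unusedSectionVars false

/-! The compatibility conditions at the special position. -/

namespace Pool.Agent.T2h34.GR

open Matrix Pool.Agent.H283R2.DR Pool.Agent.H283R2.DR.TA Pool.Agent.H789R5

variable {V W : Type} {i c : ℕ}

/-! ### The points of the special position -/

/-- `i + 1` points in general position -/
noncomputable def fp (i : ℕ) : Fin (i + 1) → Fin i → ℝ := Fin.cases 0 (fun k => Pi.single k 1)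

/-- the weight of the last point -/
noncomputable def lam (i : ℕ) : ℝ := ((i : ℝ) + 1)⁻¹

theorem lam_ne (i : ℕ) : lam i ≠ 0 := by
  unfold lam
  positivity

theorem sum_lam (i : ℕ) : ∑ _m : Fin (i + 1), lam i = 1 := by
  rw [Finset.sum_const, Finset.card_univ, Fintype.card_fin, nsmul_eq_mul]
  unfold lam
  push_cast
  exact mul_inv_cancel₀ (by positivity)

/-- the last point -/
noncomputable def fl (i : ℕ) : Fin i → ℝ := ∑ m, lam i • fp i m

/-- pairs of points -/
abbrev Q (i : ℕ) := {z : Fin (i + 1) × Fin (i + 1) // z.1 < z.2} ⊕ Fin (i + 1)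

/-- the first index of a pair of points -/
def q1 : Q i → Fin (i + 1)
  | Sum.inl z => z.1.1
  | Sum.inr k => k

/-- the second value of a pair, for an affine function on the points -/
noncomputable def q2 {E : Type*} [AddCommGroup E] [Module ℝ E] (a : Fin (i + 1) → E) : Q i → E
  | Sum.inl z => a z.1.2
  | Sum.inr _ => ∑ m, lam i • a m

/-- the matrix of an affine function -/
def am (a : Fin (i + 1) → Fin c → ℝ) : Matrix (Fin c) (Fin i) ℝ := of fun r k => a k.succ r - a 0 r

theorem am_fp (a : Fin (i + 1) → Fin c → ℝ) (m : Fin (i + 1)) : am a *ᵥ fp i m + a 0 = a m := by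
  refine Fin.cases ?_ (fun k => ?_) m
  · simp [fp]
  · have : fp i k.succ = Pi.single k 1 := rfl
    rw [this, mulVec_single_one]
    funext r
    simp [am, col_apply]

theorem am_fl (a : Fin (i + 1) → Fin c → ℝ) :
    am a *ᵥ (q2 (fp i) (Sum.inr (0 : Fin (i + 1)))) + a 0 = ∑ m, lam i • a m := by
  show am a *ᵥ (∑ m, lam i • fp i m) + a 0 = _
  have e1 : a 0 = ∑ _m : Fin (i + 1), lam i • a 0 := by
    rw [← Finset.sum_smul, sum_lam, one_smul]
  rw [mulVec_sum]
  conv_lhs => rw [e1]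
  rw [← Finset.sum_add_distrib]
  refine Finset.sum_congr rfl fun m _ => ?_
  rw [mulVec_smul, ← smul_add, am_fp]

theorem am_q2 (a : Fin (i + 1) → Fin c → ℝ) (q : Q i) :
    am a *ᵥ (q2 (fp i) q) + a 0 = q2 a q := by
  rcases q with z | k
  · exact am_fp a z.1.2
  · exact am_fl a

/-- the first points of the lines -/
noncomputable def xs (φ : V → Q i) (g : V) : Fin i → ℝ := fp i (q1 (φ g))

/-- the directions of the lines -/
noncomputable def es (φ : V → Q i) (g : V) : Fin i → ℝ := q2 (fp i) (φ g) - fp i (q1 (φ g))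

/-! ### Normal forms -/

/-- coefficients of the compatibility function of a column -/
noncomputable def nf (ρ : Col c) : Col c := (ρ.1, (- ρ.2.1 - ρ.2.2.1, (ρ.2.2.1, ρ.2.2.2)))

theorem nf_eq_zero {ρ : Col c} (h : nf ρ = 0) : ρ = 0 := by
  unfold nf at h
  rw [Prod.mk_eq_zero, Prod.mk_eq_zero, Prod.mk_eq_zero] at h
  obtain ⟨h1, h2, h3, h4⟩ := h
  rw [h3, sub_zero, neg_eq_zero] at h2
  exact Prod.ext h1 (Prod.ext h2 (Prod.ext h3 h4))

/-- reversal of a line -/
noncomputable def rev (n : Col c) : Col c := (- n.1, (- n.2.2.1, (- n.2.1, n.2.2.2)))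

theorem rev_rev (n : Col c) : rev (rev n) = n := by
  unfold rev
  simp

theorem NN_rev (n : Col c) (u w : Fin c → ℝ) : NN (rev n) u w = - NN n w u := by
  unfold NN rev
  simp only [neg_dotProduct]
  rw [skew_dot n.2.2.2.2 w u]
  ring

theorem NN_zero (u w : Fin c → ℝ) : NN (0 : Col c) u w = 0 := by
  unfold NN
  simp

/-- the value of a row -/
noncomputable def MM (σ : Sk i × (Fin i → ℝ)) (p p' : Fin i → ℝ) : ℝ :=
  (p' - p) ⬝ᵥ ((σ.1 : Matrix (Fin i) (Fin i) ℝ) *ᵥ p + σ.2)

theorem MM_comm (σ : Sk i × (Fin i → ℝ)) (p p' : Fin i → ℝ) : MM σ p' p = - MM σ p p' := by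
  unfold MM
  have h1 := skew_self σ.1.2 p
  have h2 := skew_self σ.1.2 p'
  have h3 := skew_dot σ.1.2 p p'
  simp only [sub_dotProduct, dotProduct_add]
  rw [h1, h2, h3]
  ring

theorem MM_self (σ : Sk i × (Fin i → ℝ)) (p : Fin i → ℝ) : MM σ p p = 0 := by
  unfold MM
  rw [sub_self, zero_dotProduct]

theorem MM_last (σ : Sk i × (Fin i → ℝ)) (k : Fin (i + 1)) :
    MM σ (fp i k) (∑ m, lam i • fp i m) = ∑ m, lam i * MM σ (fp i k) (fp i m) := by
  unfold MM
  have e1 : (∑ m, lam i • fp i m) - fp i k = ∑ m, lam i • (fp i m - fp i k) := by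
    simp only [smul_sub, Finset.sum_sub_distrib]
    rw [← Finset.sum_smul, sum_lam, one_smul]
  rw [e1, sum_dotProduct]
  refine Finset.sum_congr rfl fun m _ => ?_
  rw [smul_dotProduct, smul_eq_mul]

theorem MM_inj {σ : Sk i × (Fin i → ℝ)} (h : ∀ k l, MM σ (fp i k) (fp i l) = 0) : σ = 0 := by
  have h2 : σ.2 = 0 := by
    funext l
    have := h 0 l.succ
    unfold MM at this
    have e0 : fp i 0 = 0 := rfl
    have e1 : fp i l.succ = Pi.single l 1 := rfl
    rw [e0, e1, sub_zero, mulVec_zero, zero_add, single_one_dotProduct] at this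
    exact this
  have h1 : σ.1 = 0 := by
    apply Subtype.ext
    have hA' : ∀ k l, (σ.1 : Matrix (Fin i) (Fin i) ℝ) k l = - (σ.1 : Matrix (Fin i) (Fin i) ℝ) l k := by
      intro k l
      have h1 : (σ.1 : Matrix (Fin i) (Fin i) ℝ)ᵀ = - (σ.1 : Matrix (Fin i) (Fin i) ℝ) := σ.1.2
      have := congrFun (congrFun h1 l) k
      simpa using this
    ext l k
    have := h k.succ l.succ
    unfold MM at this
    have e1 : ∀ l : Fin i, fp i l.succ = Pi.single l 1 := fun _ => rfl
    rw [e1, e1, h2, add_zero, mulVec_single_one, sub_dotProduct, single_one_dotProduct,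
      single_one_dotProduct, col_apply, col_apply] at this
    have h3 := hA' k k
    show (σ.1 : Matrix (Fin i) (Fin i) ℝ) l k = 0
    linarith
  exact Prod.ext h1 h2

/-- the compatibility condition in normal form -/
theorem compat {φ : V → Q i} {a : W → Fin (i + 1) → Fin c → ℝ} {z : Par V W i c}
    (hz : z ∈ LinearMap.ker (Psi (es φ) (fun h => am (a h)) (xs φ) (fun h => a h 0)))
    (g : V) (h : W) :
    MM (z.1 h) (fp i (q1 (φ g))) (q2 (fp i) (φ g)) =
      NN (nf (z.2 g)) (a h (q1 (φ g))) (q2 (a h) (φ g)) := by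
  have h0 := congrFun (LinearMap.mem_ker.1 hz) (g, h)
  change es φ g ⬝ᵥ (((z.1 h).1 : Matrix (Fin i) (Fin i) ℝ) *ᵥ xs φ g + (z.1 h).2) -
    ((z.2 g).1 - (z.2 g).2.1 ⬝ᵥ (am (a h) *ᵥ xs φ g + a h 0) +
      (am (a h) *ᵥ es φ g) ⬝ᵥ (((z.2 g).2.2.2 : Matrix (Fin c) (Fin c) ℝ) *ᵥ
        (am (a h) *ᵥ xs φ g + a h 0) + (z.2 g).2.2.1)) = 0 at h0
  have e1 : am (a h) *ᵥ xs φ g + a h 0 = a h (q1 (φ g)) := am_fp _ _
  have e2 : am (a h) *ᵥ es φ g = q2 (a h) (φ g) - a h (q1 (φ g)) := by
    unfold es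
    rw [mulVec_sub, ← am_q2 (a h) (φ g), ← e1]
    unfold xs
    abel
  rw [e1, e2] at h0
  have e3 := skew_self (z.2 g).2.2.2.2 (a h (q1 (φ g)))
  unfold MM NN nf
  simp only [dotProduct_add, sub_dotProduct, neg_dotProduct] at h0 ⊢
  rw [e3] at h0
  rw [dotProduct_comm (z.2 g).2.2.1, dotProduct_comm (z.2 g).2.2.1]
  unfold es xs at h0
  simp only [sub_dotProduct] at h0
  linarith

end Pool.Agent.T2h34.GR
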