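import Mathlib
import Pool.Agent.T2h34.GR.Ker

set_option autoImplicit false
set_option linter.unusedSectionVars false

/-! The compatibility conditions at the special position: dimension of the solution space. -/

namespace Pool.Agent.T2h34.GR

open Matrix Pool.Agent.H283R2.DR Pool.Agent.H283R2.DR.TA Pool.Agent.H789R5

variable {V W : Type} {i c : ℕ}

theorem NN_smul (s : ℝ) (n : Col c) (u w : Fin c → ℝ) : NN (s • n) u w = s * NN n u w := by
  unfold NN
  simp only [Prod.smul_fst, Prod.smul_snd, Submodule.coe_smul, smul_mulVec, dotProduct_smul,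
    smul_dotProduct, smul_eq_mul]
  ring

/-- the normal form of an ordered pair -/
noncomputable def nn (n : Q i → Col c) (k l : Fin (i + 1)) : Col c :=
  if h : k < l then n (Sum.inl ⟨(k, l), h⟩) else
    if h : l < k then rev (n (Sum.inl ⟨(l, k), h⟩)) else 0

theorem nn_of_lt (n : Q i → Col c) {k l : Fin (i + 1)} (h : k < l) :
    nn n k l = n (Sum.inl ⟨(k, l), h⟩) := by
  unfold nn
  rw [dif_pos h]

theorem nn_of_gt (n : Q i → Col c) {k l : Fin (i + 1)} (h : l < k) :
    nn n k l = rev (n (Sum.inl ⟨(l, k), h⟩)) := by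
  unfold nn
  rw [dif_neg (not_lt.2 h.le), dif_pos h]

theorem nn_self (n : Q i → Col c) (k : Fin (i + 1)) : nn n k k = 0 := by
  unfold nn
  rw [dif_neg (lt_irrefl _), dif_neg (lt_irrefl _)]

theorem nn_rev (n : Q i → Col c) {k l : Fin (i + 1)} (h : k ≠ l) : nn n l k = rev (nn n k l) := by
  rcases lt_or_gt_of_ne h with h | h
  · rw [nn_of_lt n h, nn_of_gt n h]
  · rw [nn_of_lt n h, nn_of_gt n h, rev_rev]

theorem card_lt_pairs (n : ℕ) : Fintype.card {z : Fin n × Fin n // z.1 < z.2} = n * (n - 1) / 2 := by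
  rw [Fintype.card_subtype, Finset.card_filter, Fintype.sum_prod_type_right]
  have h2 : ∀ b : Fin n, (∑ a : Fin n, if a < b then 1 else 0) = (b : ℕ) := by
    intro b
    rw [← Finset.card_filter]
    have : (Finset.univ.filter fun a : Fin n => a < b) = Finset.Iio b := by
      ext; simp
    rw [this, Fin.card_Iio]
  rw [Finset.sum_congr rfl fun b _ => h2 b, Fin.sum_univ_eq_sum_range (fun i => i) n,
    Finset.sum_range_id]

/-- the target of the coordinates -/
abbrev Tg (i c : ℕ) := ({z : Fin (i + 1) × Fin (i + 1) // z.1 < z.2} → ℝ) ×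
  ((Fin i → Fin c → ℝ) × (Sk c × (Fin c → ℝ)))

theorem finrank_Tg (i c : ℕ) : Module.finrank ℝ (Tg i c) = (i + c) * (i + c + 1) / 2 := by
  rw [Module.finrank_prod, Module.finrank_prod, Module.finrank_fintype_fun_eq_card, card_lt_pairs,
    finrank_triv, Module.finrank_pi_fintype]
  simp only [Module.finrank_fin_fun, Finset.sum_const, Finset.card_univ, Fintype.card_fin,
    smul_eq_mul, Nat.add_sub_cancel]
  obtain ⟨a, ha⟩ : 2 ∣ (i + 1) * i := by
    have := Nat.even_mul_succ_self i
    rw [mul_comm]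
    exact this.two_dvd
  obtain ⟨b, hb⟩ : 2 ∣ c * (c + 1) := (Nat.even_mul_succ_self c).two_dvd
  have e : (i + c) * (i + c + 1) = 2 * (a + i * c + b) := by
    calc (i + c) * (i + c + 1) = (i + 1) * i + 2 * (i * c) + c * (c + 1) := by ring
      _ = _ := by rw [ha, hb]; ring
  rw [e, ha, hb, Nat.mul_div_cancel_left _ (by norm_num), Nat.mul_div_cancel_left _ (by norm_num),
    Nat.mul_div_cancel_left _ (by norm_num)]
  ring

/-- coordinates on the space of solutions -/
noncomputable def coo (ψ : Q i → V) : Par V W i c →ₗ[ℝ] Tg i c where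
  toFun z := (fun z' => (z.2 (ψ (Sum.inl z'))).1, (fun k => (z.2 (ψ (Sum.inr k.succ))).2.2.1,
    ((z.2 (ψ (Sum.inr 0))).2.2.2, (z.2 (ψ (Sum.inr 0))).2.2.1)))
  map_add' _ _ := rfl
  map_smul' _ _ := rfl

theorem coo_inj (hi : 1 ≤ i) {φ : V → Q i} {ψ : Q i → V} (hψ : ∀ q, φ (ψ q) = q)
    {θ : W → TI i c} (hθ : Function.Surjective θ) {z : Par V W i c}
    (hz : z ∈ LinearMap.ker (Psi (es φ) (fun h => am (tp (θ h))) (xs φ) (fun h => tp (θ h) 0)))
    (h0 : coo ψ z = 0) : z = 0 := by
  have hl := lam_ne i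
  have hc := compat hz
  set n : Q i → Col c := fun q => nf (z.2 (ψ q)) with hn
  have hcoo := h0
  unfold coo at hcoo
  rw [LinearMap.coe_mk, AddHom.coe_mk, Prod.mk_eq_zero, Prod.mk_eq_zero, Prod.mk_eq_zero] at hcoo
  obtain ⟨k1, k2, k3, k4⟩ := hcoo
  -- compatibility for ordered pairs
  have E1 : ∀ (h : W) (k l : Fin (i + 1)), MM (z.1 h) (fp i k) (fp i l) =
      NN (nn n k l) (tp (θ h) k) (tp (θ h) l) := by
    intro h k l
    rcases lt_trichotomy k l with hkl | hkl | hkl
    · have := hc (ψ (Sum.inl ⟨(k, l), hkl⟩)) h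
      rw [hψ] at this
      rw [nn_of_lt n hkl]
      exact this
    · subst hkl
      rw [nn_self, NN_zero, MM_self]
    · have := hc (ψ (Sum.inl ⟨(l, k), hkl⟩)) h
      rw [hψ] at this
      rw [nn_of_gt n hkl, NN_rev, MM_comm]
      exact congrArg Neg.neg this
  have E2 : ∀ (h : W) (k : Fin (i + 1)), MM (z.1 h) (fp i k) (∑ m, lam i • fp i m) =
      NN (n (Sum.inr k)) (tp (θ h) k) (∑ m, lam i • tp (θ h) m) := by
    intro h k
    have := hc (ψ (Sum.inr k)) h
    rw [hψ] at this
    exact this
  have C := fun k : Fin (i + 1) => coef (k := k) (lam := lam i) (n0 := n (Sum.inr k))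
    (n := fun m => (-lam i) • nn n k m) (by
      intro τ
      obtain ⟨h, rfl⟩ := hθ τ
      rw [← E2 h k, MM_last]
      simp only [NN_smul]
      rw [← Finset.sum_add_distrib]
      refine Finset.sum_eq_zero fun m _ => ?_
      rw [E1 h k m]
      ring)
  -- the scalars
  have A1 : ∀ z', (n (Sum.inl z')).1 = 0 := fun z' => congrFun k1 z'
  have A1' : ∀ k l, (nn n k l).1 = 0 := by
    intro k l
    rcases lt_trichotomy k l with hkl | hkl | hkl
    · rw [nn_of_lt n hkl]; exact A1 _
    · subst hkl; rw [nn_self]; rfl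
    · rw [nn_of_gt n hkl]
      show - (n (Sum.inl ⟨(l, k), hkl⟩)).1 = 0
      rw [A1, neg_zero]
  have A2 : ∀ k, (n (Sum.inr k)).2.2.1 = 0 := by
    intro k
    refine Fin.cases ?_ (fun k => ?_) k
    · exact k4
    · exact congrFun k2 k
  have A3 : (n (Sum.inr 0)).2.2.2 = 0 := k3
  have B1 : ∀ k, (n (Sum.inr k)).1 = 0 := by
    intro k
    have := (C k).1
    simp only [Prod.smul_fst, A1', smul_zero, Finset.sum_const_zero, add_zero] at this
    exact this
  have B2 : ∀ k l, k ≠ l → (nn n k l).2.2.1 = 0 := by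
    intro k l hkl
    have := (C k).2.1 l (Ne.symm hkl)
    rw [A2 k, smul_zero, zero_add] at this
    simp only [Prod.smul_snd, Prod.smul_fst, smul_eq_zero, neg_eq_zero] at this
    exact this.resolve_left hl
  have B3 : ∀ k l, k ≠ l → (nn n k l).2.1 = 0 := by
    intro k l hkl
    have h1 := B2 l k (Ne.symm hkl)
    rw [nn_rev n hkl] at h1
    exact neg_eq_zero.1 h1
  have B3' : ∀ k l, (nn n k l).2.1 = 0 := by
    intro k l
    by_cases hkl : k = l
    · subst hkl; rw [nn_self]; rfl
    · exact B3 k l hkl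
  have B4 : ∀ k, (n (Sum.inr k)).2.1 = 0 := by
    intro k
    have := (C k).2.2.1
    simp only [Prod.smul_snd, Prod.smul_fst, B3', A2, nn_self, smul_zero, Finset.sum_const_zero,
      add_zero, Prod.fst_zero, Prod.snd_zero] at this
    exact this
  have B5 : ∀ k l, k ≠ l → (nn n k l).2.2.2 = (n (Sum.inr k)).2.2.2 := by
    intro k l hkl
    have := (C k).2.2.2 l (Ne.symm hkl)
    simp only [Prod.smul_snd] at this
    apply Subtype.ext
    have h2 := congrArg (fun a : Sk c => (a : Matrix (Fin c) (Fin c) ℝ)) this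
    simp only [Submodule.coe_add, Submodule.coe_smul, neg_smul, Submodule.coe_zero] at h2
    rw [← sub_eq_add_neg, ← smul_sub, smul_eq_zero] at h2
    exact (sub_eq_zero.1 (h2.resolve_left hl)).symm
  have B6 : ∀ k, (n (Sum.inr k)).2.2.2 = 0 := by
    intro k
    by_cases hk : k = 0
    · rw [hk]; exact A3
    · rw [← B5 k 0 hk, nn_rev n (Ne.symm hk)]
      show (nn n 0 k).2.2.2 = 0
      rw [B5 0 k (Ne.symm hk), A3]
  have N1 : ∀ k l, nn n k l = 0 := by
    intro k l
    by_cases hkl : k = l
    · subst hkl; exact nn_self n k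
    · exact Prod.ext (A1' k l) (Prod.ext (B3 k l hkl) (Prod.ext (B2 k l hkl)
        (by rw [B5 k l hkl, B6]; rfl)))
  have R0 : z.1 = 0 := by
    funext h
    apply MM_inj
    intro k l
    rw [E1 h k l, N1, NN_zero]
  have hcol : ∀ g (τ : TI i c), NN (nf (z.2 g)) (tp τ (q1 (φ g))) (q2 (tp τ) (φ g)) = 0 := by
    intro g τ
    obtain ⟨h, rfl⟩ := hθ τ
    rw [← hc g h, R0]
    unfold MM
    simp
  have R1 : z.2 = 0 := by
    funext g
    apply nf_eq_zero
    have hg := hcol g
    rcases hq : φ g with z' | k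
    · rw [hq] at hg
      obtain ⟨⟨k, l⟩, hkl⟩ := z'
      simp only at hkl
      have D := coef (k := k) (lam := lam i) (n0 := (0 : Col c))
        (n := fun m => if m = l then nf (z.2 g) else 0) (by
          intro τ
          rw [NN_zero, zero_add, Finset.sum_eq_single l (fun m _ hm => by
            rw [if_neg hm, NN_zero]) (fun h => absurd (Finset.mem_univ _) h), if_pos rfl]
          exact hg τ)
      obtain ⟨d1, d2, d3, d4⟩ := D
      have e1 : ∀ {M : Type} [AddCommMonoid M] (f : Col c → M), f 0 = 0 →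
          ∑ m, f (if m = l then nf (z.2 g) else 0) = f (nf (z.2 g)) := by
        intro M _ f hf
        rw [Finset.sum_eq_single l (fun m _ hm => by rw [if_neg hm, hf])
          (fun h => absurd (Finset.mem_univ _) h), if_pos rfl]
      rw [e1 (fun n => n.1) rfl] at d1
      rw [e1 (fun n => n.2.1) rfl] at d3
      have d2' := d2 l hkl.ne'
      have d4' := d4 l hkl.ne'
      simp only [Prod.fst_zero, Prod.snd_zero, smul_zero, zero_add, if_true, hkl.ne, if_false,
        add_zero] at d1 d2' d3 d4'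
      exact Prod.ext d1 (Prod.ext d3 (Prod.ext d2' d4'))
    · rw [hq] at hg
      have D := coef (k := k) (lam := lam i) (n0 := nf (z.2 g)) (n := fun _ => (0 : Col c)) (by
          intro τ
          simp only [NN_zero, Finset.sum_const_zero, add_zero]
          exact hg τ)
      obtain ⟨d1, d2, d3, d4⟩ := D
      obtain ⟨m, hm⟩ : ∃ m : Fin (i + 1), m ≠ k := by
        have : Nontrivial (Fin (i + 1)) := by
          rw [Fin.nontrivial_iff_two_le]
          omega
        exact exists_ne k
      have d2' := d2 m hm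
      have d4' := d4 m hm
      simp only [Prod.fst_zero, Prod.snd_zero, Finset.sum_const_zero, add_zero, smul_eq_zero, hl,
        false_or] at d1 d2' d3 d4'
      rw [d2', smul_zero, add_zero] at d3
      exact Prod.ext d1 (Prod.ext d3 (Prod.ext d2' d4'))
  exact Prod.ext R0 R1

/-- the compatibility conditions have few solutions at the special position -/
theorem ker_le [Finite V] [Finite W] (hi : 1 ≤ i) {φ : V → Q i} (hφ : Function.Surjective φ)
    {θ : W → TI i c} (hθ : Function.Surjective θ) :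
    Module.finrank ℝ (LinearMap.ker
      (Psi (es φ) (fun h => am (tp (θ h))) (xs φ) (fun h => tp (θ h) 0))) ≤
      (i + c) * (i + c + 1) / 2 := by
  have := Fintype.ofFinite V
  have := Fintype.ofFinite W
  choose ψ hψ using hφ
  rw [← finrank_Tg, ← finrank_top ℝ (Tg i c)]
  exact CP.dim_le_of_inj (coo ψ) ⊤ (fun _ _ => Submodule.mem_top)
    (fun z hz h => coo_inj hi hψ hθ hz h)

end Pool.Agent.T2h34.GR
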