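import Mathlib
import Pool.Agent.T2h34.GR.Ker2
import Pool.Agent.T2h34.CP.Base
import Pool.Agent.T2h34.CP.Any

set_option autoImplicit false
set_option linter.unusedSectionVars false

/-! Grids of rigid graphs. -/

namespace Pool.Agent.T2h34.GR

open Matrix Pool.Agent.H283R2.DR Pool.Agent.H283R2.DR.TA Pool.Agent.H789R5

variable {V W : Type} {i c : ℕ}

/-- the parameters of a placement -/
abbrev EE (V W : Type) (i c : ℕ) := (V → Fin i → ℝ) × ((W → Fin c → ℝ) × (V × W → ℝ))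

theorem psi_aff (e : V → Fin i → ℝ) (α : W → Matrix (Fin c) (Fin i) ℝ) :
    CP.Aff (fun p : EE V W i c => Psi e α p.1 p.2.1) := by
  intro p0 p1 s
  refine LinearMap.ext fun z => ?_
  funext p
  obtain ⟨g, h⟩ := p
  show e g ⬝ᵥ (((z.1 h).1 : Matrix (Fin i) (Fin i) ℝ) *ᵥ (p0.1 g + s • (p1.1 g - p0.1 g)) +
      (z.1 h).2) - ((z.2 g).1 - (z.2 g).2.1 ⬝ᵥ (α h *ᵥ (p0.1 g + s • (p1.1 g - p0.1 g)) +
        (p0.2.1 h + s • (p1.2.1 h - p0.2.1 h))) +
      (α h *ᵥ e g) ⬝ᵥ (((z.2 g).2.2.2 : Matrix (Fin c) (Fin c) ℝ) *ᵥ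
        (α h *ᵥ (p0.1 g + s • (p1.1 g - p0.1 g)) +
        (p0.2.1 h + s • (p1.2.1 h - p0.2.1 h))) + (z.2 g).2.2.1)) =
    (e g ⬝ᵥ (((z.1 h).1 : Matrix (Fin i) (Fin i) ℝ) *ᵥ p0.1 g + (z.1 h).2) -
      ((z.2 g).1 - (z.2 g).2.1 ⬝ᵥ (α h *ᵥ p0.1 g + p0.2.1 h) +
      (α h *ᵥ e g) ⬝ᵥ (((z.2 g).2.2.2 : Matrix (Fin c) (Fin c) ℝ) *ᵥ
        (α h *ᵥ p0.1 g + p0.2.1 h) + (z.2 g).2.2.1))) +
    s * ((e g ⬝ᵥ (((z.1 h).1 : Matrix (Fin i) (Fin i) ℝ) *ᵥ p1.1 g + (z.1 h).2) -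
      ((z.2 g).1 - (z.2 g).2.1 ⬝ᵥ (α h *ᵥ p1.1 g + p1.2.1 h) +
      (α h *ᵥ e g) ⬝ᵥ (((z.2 g).2.2.2 : Matrix (Fin c) (Fin c) ℝ) *ᵥ
        (α h *ᵥ p1.1 g + p1.2.1 h) + (z.2 g).2.2.1))) -
      (e g ⬝ᵥ (((z.1 h).1 : Matrix (Fin i) (Fin i) ℝ) *ᵥ p0.1 g + (z.1 h).2) -
      ((z.2 g).1 - (z.2 g).2.1 ⬝ᵥ (α h *ᵥ p0.1 g + p0.2.1 h) +
      (α h *ᵥ e g) ⬝ᵥ (((z.2 g).2.2.2 : Matrix (Fin c) (Fin c) ℝ) *ᵥ
        (α h *ᵥ p0.1 g + p0.2.1 h) + (z.2 g).2.2.1))))
  simp only [mulVec_add, mulVec_smul, mulVec_sub, dotProduct_add, dotProduct_smul, dotProduct_sub,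
    smul_eq_mul]
  ring

/-- a grid with rigid rows and rigid columns has a placement with few motions if the
compatibility conditions have few solutions for some plates -/
theorem exists_plc [Finite V] [Finite W] {k : ℕ} (e : V → Fin i → ℝ)
    (α : W → Matrix (Fin c) (Fin i) ℝ) {x : V → Fin i → ℝ} {β : W → Fin c → ℝ}
    (hk : Module.finrank ℝ (LinearMap.ker (Psi e α x β)) ≤ k) {X : SimpleGraph (V × W)}
    (hrow : ∀ h, GenRigid i (X.comap fun g => (g, h)))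
    (hcol : ∀ g, GenRigid (c + 1) (X.comap fun h => (g, h))) :
    ∃ P : V × W → Fin (i + c) → ℝ, mo X P ≤ k := by
  have := Fintype.ofFinite V
  have := Fintype.ofFinite W
  have g0 : Good (fun p : EE V W i c =>
      Module.finrank ℝ (LinearMap.ker (Psi e α p.1 p.2.1)) ≤ k) :=
    CP.good_ker (psi_aff e α) k
  have g1 : ∀ h, Good (fun p : EE V W i c =>
      InfRigid (X.comap fun g => (g, h)) (fun g => xi e p.1 p.2.2 (g, h))) := by
    intro h
    refine CP.Aff.good (infRigid_good _) (F := fun p : EE V W i c =>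
      fun g => xi e p.1 p.2.2 (g, h)) ?_
    intro p0 p1 s
    funext g
    show (p0.1 g + s • (p1.1 g - p0.1 g)) + (p0.2.2 (g, h) + s * (p1.2.2 (g, h) - p0.2.2 (g, h))) • e g =
      (p0.1 g + p0.2.2 (g, h) • e g) + s • ((p1.1 g + p1.2.2 (g, h) • e g) -
        (p0.1 g + p0.2.2 (g, h) • e g))
    module
  have g2 : ∀ g, Good (fun p : EE V W i c =>
      InfRigid (X.comap fun h => (g, h))
        (fun h => vecCons (p.2.2 (g, h)) (eta e α p.1 p.2.1 p.2.2 (g, h)))) := by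
    intro g
    refine CP.Aff.good (infRigid_good _) (F := fun p : EE V W i c =>
      fun h => vecCons (p.2.2 (g, h)) (eta e α p.1 p.2.1 p.2.2 (g, h))) ?_
    intro p0 p1 s
    funext h
    have e1 : eta e α (p0 + s • (p1 - p0)).1 (p0 + s • (p1 - p0)).2.1 (p0 + s • (p1 - p0)).2.2 (g, h) =
        eta e α p0.1 p0.2.1 p0.2.2 (g, h) + s • (eta e α p1.1 p1.2.1 p1.2.2 (g, h) -
          eta e α p0.1 p0.2.1 p0.2.2 (g, h)) := by
      show α h *ᵥ ((p0.1 g + s • (p1.1 g - p0.1 g)) +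
          (p0.2.2 (g, h) + s * (p1.2.2 (g, h) - p0.2.2 (g, h))) • e g) +
          (p0.2.1 h + s • (p1.2.1 h - p0.2.1 h)) =
        (α h *ᵥ (p0.1 g + p0.2.2 (g, h) • e g) + p0.2.1 h) +
        s • ((α h *ᵥ (p1.1 g + p1.2.2 (g, h) • e g) + p1.2.1 h) -
          (α h *ᵥ (p0.1 g + p0.2.2 (g, h) • e g) + p0.2.1 h))
      simp only [mulVec_add, mulVec_smul, mulVec_sub]
      module
    show vecCons (p0.2.2 (g, h) + s * (p1.2.2 (g, h) - p0.2.2 (g, h)))
      (eta e α (p0 + s • (p1 - p0)).1 (p0 + s • (p1 - p0)).2.1 (p0 + s • (p1 - p0)).2.2 (g, h)) =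
      vecCons (p0.2.2 (g, h)) (eta e α p0.1 p0.2.1 p0.2.2 (g, h)) +
        s • (vecCons (p1.2.2 (g, h)) (eta e α p1.1 p1.2.1 p1.2.2 (g, h)) -
          vecCons (p0.2.2 (g, h)) (eta e α p0.1 p0.2.1 p0.2.2 (g, h)))
    rw [e1]
    funext k
    refine Fin.cases ?_ (fun k => ?_) k
    · rfl
    · rfl
  have e0 : ∃ p : EE V W i c, Module.finrank ℝ (LinearMap.ker (Psi e α p.1 p.2.1)) ≤ k :=
    ⟨(x, (β, 0)), hk⟩
  have e1 : ∀ h, ∃ p : EE V W i c,
      InfRigid (X.comap fun g => (g, h)) (fun g => xi e p.1 p.2.2 (g, h)) := by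
    intro h
    obtain ⟨q, hq⟩ := hrow h
    refine ⟨(q, (0, 0)), ?_⟩
    have : (fun g => xi e q (0 : V × W → ℝ) (g, h)) = q := by
      funext g
      show q g + (0 : ℝ) • e g = q g
      rw [zero_smul, add_zero]
    show InfRigid _ (fun g => xi e q (0 : V × W → ℝ) (g, h))
    rw [this]
    exact hq
  have e2 : ∀ g, ∃ p : EE V W i c, InfRigid (X.comap fun h => (g, h))
        (fun h => vecCons (p.2.2 (g, h)) (eta e α p.1 p.2.1 p.2.2 (g, h))) := by
    intro g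
    obtain ⟨q, hq⟩ := hcol g
    refine ⟨(0, (fun h => vecTail (q h) - q h 0 • (α h *ᵥ e g), fun p => q p.2 0)), ?_⟩
    have : (fun h => vecCons (q h 0) (eta e α (0 : V → Fin i → ℝ)
        (fun h => vecTail (q h) - q h 0 • (α h *ᵥ e g)) (fun p : V × W => q p.2 0) (g, h))) = q := by
      funext h
      have e1 : eta e α (0 : V → Fin i → ℝ)
        (fun h => vecTail (q h) - q h 0 • (α h *ᵥ e g)) (fun p : V × W => q p.2 0) (g, h) =
          vecTail (q h) := by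
        show α h *ᵥ ((0 : Fin i → ℝ) + q h 0 • e g) + (vecTail (q h) - q h 0 • (α h *ᵥ e g)) = _
        rw [zero_add, mulVec_smul]
        abel
      rw [e1]
      funext k
      refine Fin.cases ?_ (fun k => ?_) k
      · rfl
      · rfl
    show InfRigid _ (fun h => vecCons (q h 0) (eta e α (0 : V → Fin i → ℝ)
        (fun h => vecTail (q h) - q h 0 • (α h *ᵥ e g)) (fun p : V × W => q p.2 0) (g, h)))
    rw [this]
    exact hq
  have e1' : ∃ p : EE V W i c,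
      ∀ h, InfRigid (X.comap fun g => (g, h)) (fun g => xi e p.1 p.2.2 (g, h)) :=
    good_family _ g1 e1
  have e2' : ∃ p : EE V W i c, ∀ g, InfRigid (X.comap fun h => (g, h))
        (fun h => vecCons (p.2.2 (g, h)) (eta e α p.1 p.2.1 p.2.2 (g, h))) :=
    good_family _ g2 e2
  obtain ⟨p, h0, h1, h2⟩ := CP.good_and_exists g0 (CP.good_and (CP.good_forall g1)
    (CP.good_forall g2)) e0 (CP.good_and_exists (CP.good_forall g1) (CP.good_forall g2) e1' e2')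
  exact ⟨plc e α p.1 p.2.1 p.2.2, (mo_le_ker e α p.1 p.2.1 p.2.2 h1 h2).trans h0⟩

theorem card_Q (i : ℕ) : Fintype.card (Q i) = (i + 2).choose 2 := by
  rw [Fintype.card_sum, card_lt_pairs, Fintype.card_fin, Nat.choose_two_right]
  obtain ⟨a, ha⟩ : 2 ∣ i * (i + 1) := (Nat.even_mul_succ_self i).two_dvd
  have e1 : (i + 1) * (i + 1 - 1) = 2 * a := by rw [← ha, Nat.add_sub_cancel]; ring
  have e2 : (i + 2) * (i + 2 - 1) = 2 * (a + (i + 1)) := by
    have : i + 2 - 1 = i + 1 := rfl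
    rw [this]
    calc (i + 2) * (i + 1) = i * (i + 1) + 2 * (i + 1) := by ring
      _ = _ := by rw [ha]; ring
  rw [e1, e2, Nat.mul_div_cancel_left _ (by norm_num), Nat.mul_div_cancel_left _ (by norm_num)]

theorem card_TI (i c : ℕ) : Fintype.card (TI i c) = (c + 1) + i * (c + 1).choose 2 := by
  rw [Fintype.card_sum, Fintype.card_sum, Fintype.card_prod, Fintype.card_prod, card_lt_pairs,
    Fintype.card_fin, Fintype.card_fin, Fintype.card_fin, Fintype.card_unit,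
    ← Nat.choose_two_right, Nat.choose_succ_succ' c 1, Nat.choose_one_right]
  ring

/-- **Grids of rigid graphs.** -/
theorem grid [Fintype V] [Fintype W] (hi : 1 ≤ i) (hV : (i + 2).choose 2 ≤ Fintype.card V)
    (hW : (c + 1) + i * (c + 1).choose 2 ≤ Fintype.card W) {X : SimpleGraph (V × W)}
    (hrow : ∀ h, GenRigid i (X.comap fun g => (g, h)))
    (hcol : ∀ g, GenRigid (c + 1) (X.comap fun h => (g, h))) : GenRigid (i + c) X := by
  classical
  have hV' := hV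
  have hW' := hW
  rw [← card_Q] at hV
  rw [← card_TI] at hW
  obtain ⟨f⟩ := Function.Embedding.nonempty_of_card_le hV
  obtain ⟨f'⟩ := Function.Embedding.nonempty_of_card_le hW
  have : Nonempty (Q i) := ⟨Sum.inr 0⟩
  have : Nonempty (TI i c) := ⟨Sum.inl ()⟩
  obtain ⟨P, hP⟩ := exists_plc _ _ (ker_le hi (Function.invFun_surjective f.injective)
    (Function.invFun_surjective f'.injective)) hrow hcol
  obtain ⟨q, hq⟩ := exists_mg (V × W) (i + c)
  rw [genRigid_iff hq]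
  · exact (hq.min X P).trans hP
  · rw [Fintype.card_prod]
    have h1 : i + 1 ≤ (i + 2).choose 2 := by
      rw [Nat.choose_succ_succ' (i + 1) 1, Nat.choose_one_right]
      omega
    calc i + c ≤ (i + 1) * (c + 1) := by nlinarith
      _ ≤ Fintype.card V * Fintype.card W := Nat.mul_le_mul (h1.trans hV') (by omega)

end Pool.Agent.T2h34.GR
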