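import Mathlib
import Pool.Agent.T2h34.GR.Main
import Pool.Agent.T2h34.CP.Asm

set_option autoImplicit false
set_option linter.unusedSectionVars false

/-! Cartesian products of rigid graphs. -/

namespace Pool.Agent.T2h34.GR

open Matrix Pool.Agent.H283R2.DR Pool.Agent.H283R2.DR.TA Pool.Agent.H789R5

variable {V W : Type} {i j : ℕ}

/-- the sizes -/
def Big (i j a b : ℕ) : Prop :=
  ((i + 2).choose 2 ≤ a ∧ j + i * j.choose 2 ≤ b) ∨ ((j + 2).choose 2 ≤ b ∧ i + j * i.choose 2 ≤ a)

theorem grid' [Fintype V] [Fintype W] (hi : 1 ≤ i) (hj : 1 ≤ j)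
    (hb : Big i j (Fintype.card V) (Fintype.card W)) {X : SimpleGraph (V × W)}
    (hrow : ∀ h, GenRigid i (X.comap fun g => (g, h)))
    (hcol : ∀ g, GenRigid j (X.comap fun h => (g, h))) : GenRigid (i + j - 1) X := by
  rcases hb with ⟨h1, h2⟩ | ⟨h1, h2⟩
  · obtain ⟨c, rfl⟩ := Nat.exists_eq_add_of_le' hj
    exact grid hi h1 h2 hrow hcol
  · obtain ⟨c, rfl⟩ := Nat.exists_eq_add_of_le' hi
    have h3 : GenRigid (j + c) (X.comap (Prod.swap : W × V → V × W)) := by
      refine grid hj h1 h2 ?_ ?_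
      · intro g
        rw [SimpleGraph.comap_comap]
        exact hcol g
      · intro h
        rw [SimpleGraph.comap_comap]
        exact hrow h
    have e : c + 1 + j - 1 = j + c := by omega
    rw [e]
    refine CP.genRigid_iso (G := X.comap (Prod.swap : W × V → V × W)) (G' := X) ?_ h3
    exact ⟨Equiv.prodComm W V, by
      intro a b
      rfl⟩

theorem row_prod (G : SimpleGraph V) (H : SimpleGraph W) (h : W) :
    (G □ H).comap (fun g => (g, h)) = G := by
  ext a b
  simp [SimpleGraph.comap_adj, SimpleGraph.boxProd_adj]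

theorem col_prod (G : SimpleGraph V) (H : SimpleGraph W) (g : V) :
    (G □ H).comap (fun h => (g, h)) = H := by
  ext a b
  simp [SimpleGraph.comap_adj, SimpleGraph.boxProd_adj]

theorem prod_rigid [Fintype V] [Fintype W] (hi : 1 ≤ i) (hj : 1 ≤ j)
    (hb : Big i j (Fintype.card V) (Fintype.card W)) {G : SimpleGraph V} {H : SimpleGraph W}
    (hG : GenRigid i G) (hH : GenRigid j H) : GenRigid (i + j - 1) (G □ H) :=
  grid' hi hj hb (fun h => by rw [row_prod]; exact hG) (fun g => by rw [col_prod]; exact hH)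

/-- the product of two graphs with few edges is not rigid in the sum of the dimensions -/
theorem prod_not_rigid [Fintype V] [Fintype W] (hi : 1 ≤ i) (hj : 1 ≤ j)
    (hV : i < Fintype.card V) (hW : j < Fintype.card W) {G : SimpleGraph V} {H : SimpleGraph W}
    (hG : G.edgeSet.ncard + i * (i + 1) / 2 ≤ i * Fintype.card V)
    (hH : H.edgeSet.ncard + j * (j + 1) / 2 ≤ j * Fintype.card W) :
    ¬ GenRigid (i + j) (G □ H) := by
  intro h
  set a := Fintype.card V with ha
  set b := Fintype.card W with hb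
  have hab : i + j ≤ a * b := by
    calc i + j ≤ (i + 1) * (j + 1) := by nlinarith
      _ ≤ a * b := Nat.mul_le_mul hV hW
  have h1 := CP.gen_count h (by rw [Fintype.card_prod]; exact hab)
  rw [← ha, ← hb] at h1
  have h2 := CP.genRank_le_edges (d := i + j) H
  obtain ⟨s, hs⟩ : 2 ∣ i * (i + 1) := (Nat.even_mul_succ_self i).two_dvd
  obtain ⟨t, ht⟩ : 2 ∣ j * (j + 1) := (Nat.even_mul_succ_self j).two_dvd
  obtain ⟨D, hD⟩ : 2 ∣ (i + j) * (i + j + 1) := (Nat.even_mul_succ_self (i + j)).two_dvd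
  rw [hs, Nat.mul_div_cancel_left _ (by norm_num)] at hG
  rw [ht, Nat.mul_div_cancel_left _ (by norm_num)] at hH
  rw [hD, Nat.mul_div_cancel_left _ (by norm_num)] at h1
  have h3 : G.edgeSet.ncard * b + s * b ≤ i * a * b := by
    rw [← add_mul]
    exact Nat.mul_le_mul_right _ hG
  have h4 : a * H.edgeSet.ncard + a * t ≤ a * (j * b) := by
    rw [← mul_add]
    exact Nat.mul_le_mul_left _ hH
  have h5 : a * genRank (i + j) H ≤ a * H.edgeSet.ncard := Nat.mul_le_mul_left _ h2
  have h6 : s * (j + 1) ≤ s * b := Nat.mul_le_mul_left _ hW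
  have h7 : (i + 1) * t ≤ a * t := Nat.mul_le_mul_right _ hV
  have h8 : (i + j) * (a * b) = i * a * b + a * (j * b) := by ring
  have h9 : s * (j + 1) + (i + 1) * t ≤ D := by
    rw [h8] at h1
    omega
  -- `2 (s (j + 1) + (i + 1) t) = (i + 1) (j + 1) (i + j) > (i + j) (i + j + 1)`
  have h10 : 2 * (s * (j + 1) + (i + 1) * t) = (i + 1) * (j + 1) * (i + j) := by
    calc 2 * (s * (j + 1) + (i + 1) * t) = (2 * s) * (j + 1) + (i + 1) * (2 * t) := by ring
      _ = _ := by rw [← hs, ← ht]; ring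
  have h11 : (i + j) * (i + j + 1) < (i + 1) * (j + 1) * (i + j) := by
    have : i + j + 1 < (i + 1) * (j + 1) := by nlinarith
    calc (i + j) * (i + j + 1) < (i + j) * ((i + 1) * (j + 1)) :=
          Nat.mul_lt_mul_of_pos_left this (by omega)
      _ = _ := by ring
  omega

/-- the exact dimension -/
theorem prod_iff [Fintype V] [Fintype W] (hi : 1 ≤ i) (hj : 1 ≤ j)
    (hV : i < Fintype.card V) (hW : j < Fintype.card W)
    (hb : Big i j (Fintype.card V) (Fintype.card W)) {G : SimpleGraph V} {H : SimpleGraph W}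
    (hG : GenRigid i G) (hH : GenRigid j H)
    (hG' : G.edgeSet.ncard + i * (i + 1) / 2 = i * Fintype.card V)
    (hH' : H.edgeSet.ncard + j * (j + 1) / 2 = j * Fintype.card W) (d : ℕ) :
    GenRigid d (G □ H) ↔ d ≤ i + j - 1 := by
  have : Nontrivial V := Fintype.one_lt_card_iff_nontrivial.1 (by omega)
  have : Nontrivial W := Fintype.one_lt_card_iff_nontrivial.1 (by omega)
  obtain ⟨g, g', hg⟩ := exists_pair_ne V
  obtain ⟨h, h', hh⟩ := exists_pair_ne W
  have hn : ∃ u v : V × W, u ≠ v ∧ ¬ (G □ H).Adj u v := by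
    refine ⟨(g, h), (g', h'), fun e => hg (congrArg Prod.fst e), ?_⟩
    rw [SimpleGraph.boxProd_adj]
    rintro (⟨_, e⟩ | ⟨_, e⟩)
    · exact hh e
    · exact hg e
  constructor
  · intro hd
    by_contra hlt
    exact prod_not_rigid hi hj hV hW hG'.le hH'.le (CP.mono hd (by omega) hn).1
  · intro hd
    exact (CP.mono (prod_rigid hi hj hb hG hH) hd hn).1

end Pool.Agent.T2h34.GR
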