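import Mathlib
import Pool.Agent.T2h34.CP.Base
import Pool.Agent.T2h34.CP.Any

set_option autoImplicit false
set_option linter.unusedSectionVars false

/-! Graphs composed of planar rigid plates in space. -/

namespace Pool.Agent.T2h34.PL

open Matrix Pool.Agent.H283R2.DR Pool.Agent.H283R2.DR.TA Pool.Agent.H789R5 Pool.Agent.T2h34.CP

variable {C : Type} {Γ : SimpleGraph C}

/-- the edges at a vertex -/
def star (Γ : SimpleGraph C) (c : C) : Set Γ.edgeSet := {w | c ∈ (w : Sym2 C)}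

section fix

variable (c1 c2 : Γ.edgeSet → C) (M : C → Fin 3 → ℝ) (γ : C → ℝ) (t : Γ.edgeSet → ℝ)

/-- squared length of the difference of the normals -/
noncomputable def nrm (w : Γ.edgeSet) : ℝ :=
  (M (c1 w) 0 - M (c2 w) 0) ^ 2 + (M (c1 w) 1 - M (c2 w) 1) ^ 2

/-- the first coordinate of the point of the edge `w` -/
noncomputable def q0 (w : Γ.edgeSet) : ℝ :=
  (-(γ (c1 w) - γ (c2 w)) * (M (c1 w) 0 - M (c2 w) 0) - t w * (M (c1 w) 1 - M (c2 w) 1)) /
    nrm c1 c2 M w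

/-- the second coordinate of the point of the edge `w` -/
noncomputable def q1 (w : Γ.edgeSet) : ℝ :=
  (-(γ (c1 w) - γ (c2 w)) * (M (c1 w) 1 - M (c2 w) 1) + t w * (M (c1 w) 0 - M (c2 w) 0)) /
    nrm c1 c2 M w

/-- the placement in the plane -/
noncomputable def qq (w : Γ.edgeSet) : Fin 2 → ℝ := ![q0 c1 c2 M γ t w, q1 c1 c2 M γ t w]

/-- the placement in space -/
noncomputable def pp (w : Γ.edgeSet) : Fin 3 → ℝ :=
  ![q0 c1 c2 M γ t w, q1 c1 c2 M γ t w,
    M (c1 w) 0 * q0 c1 c2 M γ t w + M (c1 w) 1 * q1 c1 c2 M γ t w + γ (c1 w)]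

/-- the normals of the plates and their heights -/
noncomputable def mm (c : C) : Fin 3 → ℝ := ![M c 0, M c 1, γ c]

theorem same_height {w : Γ.edgeSet} (hN : nrm c1 c2 M w ≠ 0) :
    (M (c1 w) 0 - M (c2 w) 0) * q0 c1 c2 M γ t w + (M (c1 w) 1 - M (c2 w) 1) * q1 c1 c2 M γ t w =
      - (γ (c1 w) - γ (c2 w)) := by
  unfold q0 q1
  have : nrm c1 c2 M w = (M (c1 w) 0 - M (c2 w) 0) ^ 2 + (M (c1 w) 1 - M (c2 w) 1) ^ 2 := rfl
  rw [mul_div_assoc', mul_div_assoc', ← add_div, div_eq_iff hN, this]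
  ring

theorem height {w : Γ.edgeSet} (hN : nrm c1 c2 M w ≠ 0) {c : C} (hc : c = c1 w ∨ c = c2 w) :
    pp c1 c2 M γ t w 2 = M c 0 * q0 c1 c2 M γ t w + M c 1 * q1 c1 c2 M γ t w + γ c := by
  have h := same_height c1 c2 M γ t hN
  rcases hc with rfl | rfl
  · rfl
  · show M (c1 w) 0 * q0 c1 c2 M γ t w + M (c1 w) 1 * q1 c1 c2 M γ t w + γ (c1 w) = _
    linarith

/-- the velocities of the points from those of the plates -/
noncomputable def Phi : (C → Fin 3 → ℝ) →ₗ[ℝ] (Γ.edgeSet → Fin 3 → ℝ) where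
  toFun μ w :=
    let v2 : ℝ := ((M (c1 w) 0 - M (c2 w) 0) * ((μ (c1 w) 2 - μ (c2 w) 2) * q1 c1 c2 M γ t w -
        (μ (c1 w) 1 - μ (c2 w) 1)) + (M (c1 w) 1 - M (c2 w) 1) *
        (-(μ (c1 w) 2 - μ (c2 w) 2) * q0 c1 c2 M γ t w + (μ (c1 w) 0 - μ (c2 w) 0))) /
        nrm c1 c2 M w
    ![μ (c1 w) 2 * q1 c1 c2 M γ t w - μ (c1 w) 1 - v2 * M (c1 w) 0,
      - μ (c1 w) 2 * q0 c1 c2 M γ t w + μ (c1 w) 0 - v2 * M (c1 w) 1, v2]
  map_add' := by
    intro μ μ'
    funext w k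
    fin_cases k
    · simp
      ring
    · simp
      ring
    · simp
      ring
  map_smul' := by
    intro s μ
    funext w k
    fin_cases k
    · simp
      ring
    · simp
      ring
    · simp
      ring

/-- the motions of the points come from the motions of the polar framework -/
theorem mo_le [Finite C] (h12 : ∀ w : Γ.edgeSet, (w : Sym2 C) = s(c1 w, c2 w))
    (hN : ∀ w, nrm c1 c2 M w ≠ 0) {X : SimpleGraph Γ.edgeSet}
    (hX : ∀ c, InfRigid (X.induce (star Γ c)) (fun w : star Γ c => qq c1 c2 M γ t w)) :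
    mo X (pp c1 c2 M γ t) ≤ mo Γ (mm M γ) := by
  classical
  have := Fintype.ofFinite C
  refine le_trans (Submodule.finrank_mono ?_) (Submodule.finrank_map_le (Phi c1 c2 M γ t) _)
  intro v hv
  rw [mem_mot] at hv
  have hst : ∀ (c : C) (w : Γ.edgeSet), w ∈ star Γ c → c = c1 w ∨ c = c2 w := by
    intro c w hw
    have : c ∈ (w : Sym2 C) := hw
    rw [h12, Sym2.mem_iff] at this
    exact this
  have h1 : ∀ c, ∃ (θ b0 b1 : ℝ), ∀ w ∈ star Γ c,
      v w 0 + v w 2 * M c 0 = -θ * q1 c1 c2 M γ t w + b0 ∧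
      v w 1 + v w 2 * M c 1 = θ * q0 c1 c2 M γ t w + b1 := by
    intro c
    obtain ⟨A, b, hA, hb⟩ := hX c (fun w => ![v w 0 + v w 2 * M c 0, v w 1 + v w 2 * M c 1]) (by
      rintro ⟨w, hw⟩ ⟨w', hw'⟩ hadj
      have h0 := hv w w' hadj
      have e1 := height c1 c2 M γ t (hN w) (hst c w hw)
      have e2 := height c1 c2 M γ t (hN w') (hst c w' hw')
      simp only [dotProduct, Fin.sum_univ_three, Fin.sum_univ_two, Pi.sub_apply] at h0 ⊢
      rw [e1, e2] at h0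
      have e3 : pp c1 c2 M γ t w 0 = q0 c1 c2 M γ t w := rfl
      have e4 : pp c1 c2 M γ t w 1 = q1 c1 c2 M γ t w := rfl
      have e5 : pp c1 c2 M γ t w' 0 = q0 c1 c2 M γ t w' := rfl
      have e6 : pp c1 c2 M γ t w' 1 = q1 c1 c2 M γ t w' := rfl
      rw [e3, e4, e5, e6] at h0
      have e7 : qq c1 c2 M γ t w 0 = q0 c1 c2 M γ t w := rfl
      have e8 : qq c1 c2 M γ t w 1 = q1 c1 c2 M γ t w := rfl
      have e9 : qq c1 c2 M γ t w' 0 = q0 c1 c2 M γ t w' := rfl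
      have e10 : qq c1 c2 M γ t w' 1 = q1 c1 c2 M γ t w' := rfl
      rw [e7, e8, e9, e10]
      simp only [cons_val_zero, cons_val_one]
      linarith)
    have hA' : ∀ k l, A k l = - A l k := by
      intro k l
      have := congrFun (congrFun hA l) k
      simpa using this
    refine ⟨A 1 0, b 0, b 1, ?_⟩
    intro w hw
    have h2 := hb ⟨w, hw⟩
    have a1 := congrFun h2 0
    have a2 := congrFun h2 1
    simp only [mulVec, dotProduct, Fin.sum_univ_two, Pi.add_apply, cons_val_zero, cons_val_one]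
      at a1 a2
    have e7 : qq c1 c2 M γ t w 0 = q0 c1 c2 M γ t w := rfl
    have e8 : qq c1 c2 M γ t w 1 = q1 c1 c2 M γ t w := rfl
    rw [e7, e8] at a1 a2
    have z0 := hA' 0 0
    have z1 := hA' 1 1
    have z2 := hA' 0 1
    have z0' : A 0 0 = 0 := by linarith
    have z1' : A 1 1 = 0 := by linarith
    rw [z0', z2] at a1
    rw [z1'] at a2
    constructor
    · linarith
    · linarith
  choose θ b0 b1 hθ using h1
  have m1 : ∀ w : Γ.edgeSet, w ∈ star Γ (c1 w) := by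
    intro w
    show c1 w ∈ (w : Sym2 C)
    rw [h12]
    exact Sym2.mem_mk_left _ _
  have m2 : ∀ w : Γ.edgeSet, w ∈ star Γ (c2 w) := by
    intro w
    show c2 w ∈ (w : Sym2 C)
    rw [h12]
    exact Sym2.mem_mk_right _ _
  refine ⟨fun c => ![b1 c, - b0 c, - θ c], ?_, ?_⟩
  · show _ ∈ Mot Γ (mm M γ)
    rw [mem_mot]
    -- the condition is symmetric, so it is enough to prove it for the chosen orientation
    have key : ∀ w : Γ.edgeSet, (mm M γ (c1 w) - mm M γ (c2 w)) ⬝ᵥ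
        ((![b1 (c1 w), - b0 (c1 w), - θ (c1 w)] : Fin 3 → ℝ) -
          ![b1 (c2 w), - b0 (c2 w), - θ (c2 w)]) = 0 := by
      intro w
      obtain ⟨p1, p2⟩ := hθ _ w (m1 w)
      obtain ⟨p3, p4⟩ := hθ _ w (m2 w)
      have p5 := same_height c1 c2 M γ t (hN w)
      simp only [mm, dotProduct, Fin.sum_univ_three, Pi.sub_apply, cons_val_zero, cons_val_one,
        cons_val_two, tail_cons, head_cons]
      have e1 : v w 2 * (M (c1 w) 0 - M (c2 w) 0) = -(θ (c1 w) - θ (c2 w)) * q1 c1 c2 M γ t w +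
          (b0 (c1 w) - b0 (c2 w)) := by linarith
      have e2 : v w 2 * (M (c1 w) 1 - M (c2 w) 1) = (θ (c1 w) - θ (c2 w)) * q0 c1 c2 M γ t w +
          (b1 (c1 w) - b1 (c2 w)) := by linarith
      have e3 : (γ (c1 w) - γ (c2 w)) = - ((M (c1 w) 0 - M (c2 w) 0) * q0 c1 c2 M γ t w +
          (M (c1 w) 1 - M (c2 w) 1) * q1 c1 c2 M γ t w) := by linarith
      rw [e3]
      linear_combination (M (c1 w) 1 - M (c2 w) 1) * e1 - (M (c1 w) 0 - M (c2 w) 0) * e2
    intro a a' haa'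
    have hw : (⟨s(a, a'), haa'⟩ : Γ.edgeSet) = ⟨s(a, a'), haa'⟩ := rfl
    have h2 := h12 ⟨s(a, a'), haa'⟩
    have h3 := key ⟨s(a, a'), haa'⟩
    simp only [Sym2.eq_iff] at h2
    rcases h2 with ⟨h4, h5⟩ | ⟨h4, h5⟩
    · rw [← h4, ← h5] at h3
      exact h3
    · rw [← h4, ← h5] at h3
      rw [← neg_sub, neg_dotProduct, ← dotProduct_neg, neg_sub]
      exact h3
  · funext w
    obtain ⟨p1, p2⟩ := hθ _ w (m1 w)
    obtain ⟨p3, p4⟩ := hθ _ w (m2 w)
    have hv2 : ((M (c1 w) 0 - M (c2 w) 0) * ((-θ (c1 w) - -θ (c2 w)) * q1 c1 c2 M γ t w -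
        (-b0 (c1 w) - -b0 (c2 w))) + (M (c1 w) 1 - M (c2 w) 1) *
        (-(-θ (c1 w) - -θ (c2 w)) * q0 c1 c2 M γ t w + (b1 (c1 w) - b1 (c2 w)))) /
        nrm c1 c2 M w = v w 2 := by
      rw [div_eq_iff (hN w)]
      have e1 : v w 2 * (M (c1 w) 0 - M (c2 w) 0) = -(θ (c1 w) - θ (c2 w)) * q1 c1 c2 M γ t w +
          (b0 (c1 w) - b0 (c2 w)) := by linarith
      have e2 : v w 2 * (M (c1 w) 1 - M (c2 w) 1) = (θ (c1 w) - θ (c2 w)) * q0 c1 c2 M γ t w +
          (b1 (c1 w) - b1 (c2 w)) := by linarith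
      have : nrm c1 c2 M w = (M (c1 w) 0 - M (c2 w) 0) ^ 2 + (M (c1 w) 1 - M (c2 w) 1) ^ 2 := rfl
      rw [this]
      linear_combination -(M (c1 w) 0 - M (c2 w) 0) * e1 - (M (c1 w) 1 - M (c2 w) 1) * e2
    funext k
    fin_cases k
    · show -θ (c1 w) * q1 c1 c2 M γ t w - -b0 (c1 w) - _ * M (c1 w) 0 = v w 0
      simp only [cons_val_zero, cons_val_one, cons_val_two, tail_cons, head_cons]
      rw [hv2]
      linarith
    · show - -θ (c1 w) * q0 c1 c2 M γ t w + b1 (c1 w) - _ * M (c1 w) 1 = v w 1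
      simp only [cons_val_zero, cons_val_one, cons_val_two, tail_cons, head_cons]
      rw [hv2]
      linarith
    · exact hv2

end fix

end Pool.Agent.T2h34.PL
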