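import Mathlib
import Pool.Agent.T2h34.GR.Plates

set_option autoImplicit false
set_option linter.unusedSectionVars false

/-! Graphs composed of planar rigid plates in space: the generic position. -/

namespace Pool.Agent.T2h34.PL

open Matrix Pool.Agent.H283R2.DR Pool.Agent.H283R2.DR.TA Pool.Agent.H789R5 Pool.Agent.T2h34.CP

variable {C : Type} {Γ : SimpleGraph C}

/-- a placement with few motions and distinct first coordinates -/
theorem exists_pos [Finite C] {k : ℕ} (hk : ∃ P : C → Fin 3 → ℝ, mo Γ P ≤ k) :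
    ∃ M : C → Fin 3 → ℝ, mo Γ M ≤ k ∧ ∀ c c', c ≠ c' → M c 0 ≠ M c' 0 := by
  classical
  have := Fintype.ofFinite C
  have g1 : Good (fun P : C → Fin 3 → ℝ => mo Γ P ≤ k) := mo_good Γ k
  have g2 : ∀ z : C × C, Good (fun P : C → Fin 3 → ℝ => z.1 ≠ z.2 → P z.1 0 - P z.2 0 ≠ 0) := by
    intro z
    refine good_imp fun _ => ?_
    refine good_ne (F := fun P : C → Fin 3 → ℝ => P z.1 0 - P z.2 0) ?_
    intro p0 p1 s
    simp only [Pi.add_apply, Pi.smul_apply, Pi.sub_apply, smul_eq_mul]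
    ring
  have e2 : ∀ z : C × C, ∃ P : C → Fin 3 → ℝ, z.1 ≠ z.2 → P z.1 0 - P z.2 0 ≠ 0 := by
    intro z
    refine ⟨fun c _ => if c = z.1 then 1 else 0, ?_⟩
    intro hz
    simp [Ne.symm hz]
  obtain ⟨M, h1, h2⟩ := good_and_exists g1 (good_forall g2) hk (good_family _ g2 e2)
  exact ⟨M, h1, fun c c' h => sub_ne_zero.1 (h2 (c, c') h)⟩

/-- **Plates.** -/
theorem exists_plates [Finite C] {k : ℕ} (hk : ∃ P : C → Fin 3 → ℝ, mo Γ P ≤ k)
    {X : SimpleGraph Γ.edgeSet} (hX : ∀ c, GenRigid 2 (X.induce (star Γ c))) :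
    ∃ P : Γ.edgeSet → Fin 3 → ℝ, mo X P ≤ k := by
  classical
  have := Fintype.ofFinite C
  obtain ⟨M, hM1, hM2⟩ := exists_pos hk
  have hex : ∀ w : Γ.edgeSet, ∃ a b, (w : Sym2 C) = s(a, b) := by
    rintro ⟨w, hw⟩
    induction w using Sym2.ind with
    | _ a b => exact ⟨a, b, rfl⟩
  choose c1 c2 h12 using hex
  have hne : ∀ w, c1 w ≠ c2 w := by
    intro w h
    have h1 := w.2
    rw [h12 w, h] at h1
    exact Γ.loopless.irrefl _ h1
  have hN : ∀ w, nrm c1 c2 M w ≠ 0 := by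
    intro w
    have h1 := hM2 _ _ (hne w)
    have h2 : 0 < (M (c1 w) 0 - M (c2 w) 0) ^ 2 := by
      have := sub_ne_zero.2 h1
      positivity
    unfold nrm
    positivity
  -- the parameters
  let E := (C → ℝ) × (Γ.edgeSet → ℝ)
  have g0 : Good (fun p : E => mo Γ (mm M p.1) ≤ k) := by
    refine Aff.good (mo_good Γ k) (F := fun p : E => mm M p.1) ?_
    intro p0 p1 s
    funext c j
    fin_cases j
    · show M c 0 = M c 0 + s * (M c 0 - M c 0)
      ring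
    · show M c 1 = M c 1 + s * (M c 1 - M c 1)
      ring
    · rfl
  have g1 : ∀ c, Good (fun p : E =>
      InfRigid (X.induce (star Γ c)) (fun w : star Γ c => qq c1 c2 M p.1 p.2 w)) := by
    intro c
    refine Aff.good (infRigid_good _) (F := fun p : E => fun w : star Γ c => qq c1 c2 M p.1 p.2 w) ?_
    intro p0 p1 s
    funext w j
    fin_cases j
    · show (-((p0.1 (c1 w) + s * (p1.1 (c1 w) - p0.1 (c1 w))) -
          (p0.1 (c2 w) + s * (p1.1 (c2 w) - p0.1 (c2 w)))) * (M (c1 w) 0 - M (c2 w) 0) -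
          (p0.2 w + s * (p1.2 w - p0.2 w)) * (M (c1 w) 1 - M (c2 w) 1)) / nrm c1 c2 M w =
        (-(p0.1 (c1 w) - p0.1 (c2 w)) * (M (c1 w) 0 - M (c2 w) 0) -
          p0.2 w * (M (c1 w) 1 - M (c2 w) 1)) / nrm c1 c2 M w +
        s * ((-(p1.1 (c1 w) - p1.1 (c2 w)) * (M (c1 w) 0 - M (c2 w) 0) -
          p1.2 w * (M (c1 w) 1 - M (c2 w) 1)) / nrm c1 c2 M w -
        (-(p0.1 (c1 w) - p0.1 (c2 w)) * (M (c1 w) 0 - M (c2 w) 0) -
          p0.2 w * (M (c1 w) 1 - M (c2 w) 1)) / nrm c1 c2 M w)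
      ring
    · show (-((p0.1 (c1 w) + s * (p1.1 (c1 w) - p0.1 (c1 w))) -
          (p0.1 (c2 w) + s * (p1.1 (c2 w) - p0.1 (c2 w)))) * (M (c1 w) 1 - M (c2 w) 1) +
          (p0.2 w + s * (p1.2 w - p0.2 w)) * (M (c1 w) 0 - M (c2 w) 0)) / nrm c1 c2 M w =
        (-(p0.1 (c1 w) - p0.1 (c2 w)) * (M (c1 w) 1 - M (c2 w) 1) +
          p0.2 w * (M (c1 w) 0 - M (c2 w) 0)) / nrm c1 c2 M w +
        s * ((-(p1.1 (c1 w) - p1.1 (c2 w)) * (M (c1 w) 1 - M (c2 w) 1) +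
          p1.2 w * (M (c1 w) 0 - M (c2 w) 0)) / nrm c1 c2 M w -
        (-(p0.1 (c1 w) - p0.1 (c2 w)) * (M (c1 w) 1 - M (c2 w) 1) +
          p0.2 w * (M (c1 w) 0 - M (c2 w) 0)) / nrm c1 c2 M w)
      ring
  have e0 : ∃ p : E, mo Γ (mm M p.1) ≤ k := by
    refine ⟨(fun c => M c 2, 0), ?_⟩
    have : mm M (fun c => M c 2) = M := by
      funext c j
      fin_cases j <;> rfl
    show mo Γ (mm M (fun c => M c 2)) ≤ k
    rw [this]
    exact hM1
  have e1 : ∀ c, ∃ p : E,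
      InfRigid (X.induce (star Γ c)) (fun w : star Γ c => qq c1 c2 M p.1 p.2 w) := by
    intro c
    obtain ⟨q, hq⟩ := hX c
    have hmem : ∀ {c'} (h : Γ.Adj c c'), (⟨s(c, c'), h⟩ : Γ.edgeSet) ∈ star Γ c :=
      fun h => Sym2.mem_mk_left _ _
    let γ : C → ℝ := fun c' => if h : Γ.Adj c c' then
      (M c 0 - M c' 0) * q ⟨⟨s(c, c'), h⟩, hmem h⟩ 0 +
        (M c 1 - M c' 1) * q ⟨⟨s(c, c'), h⟩, hmem h⟩ 1 else 0
    let t : Γ.edgeSet → ℝ := fun w => if h : w ∈ star Γ c then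
      -(M (c1 w) 1 - M (c2 w) 1) * q ⟨w, h⟩ 0 + (M (c1 w) 0 - M (c2 w) 0) * q ⟨w, h⟩ 1 else 0
    have hγc : γ c = 0 := dif_neg (Γ.loopless.irrefl c)
    have hγ : ∀ (w : Γ.edgeSet) (hw : w ∈ star Γ c),
        -(γ (c1 w) - γ (c2 w)) = (M (c1 w) 0 - M (c2 w) 0) * q ⟨w, hw⟩ 0 +
          (M (c1 w) 1 - M (c2 w) 1) * q ⟨w, hw⟩ 1 := by
      intro w hw
      have hw' : c ∈ (w : Sym2 C) := hw
      rw [h12, Sym2.mem_iff] at hw'
      have hadj : Γ.Adj (c1 w) (c2 w) := by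
        have := w.2
        rwa [h12 w] at this
      rcases hw' with h | h
      · have ha : Γ.Adj c (c2 w) := by rw [h]; exact hadj
        have hweq : (⟨s(c, c2 w), ha⟩ : Γ.edgeSet) = w := by
          apply Subtype.ext
          show s(c, c2 w) = (w : Sym2 C)
          exact (congrArg (fun x => s(x, c2 w)) h).trans (h12 w).symm
        have h1 : γ (c2 w) = (M c 0 - M (c2 w) 0) * q ⟨w, hw⟩ 0 +
            (M c 1 - M (c2 w) 1) * q ⟨w, hw⟩ 1 := by
          have h3 : γ (c2 w) = (M c 0 - M (c2 w) 0) * q ⟨⟨s(c, c2 w), ha⟩, hmem ha⟩ 0 +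
            (M c 1 - M (c2 w) 1) * q ⟨⟨s(c, c2 w), ha⟩, hmem ha⟩ 1 := dif_pos ha
          have h4 : (⟨⟨s(c, c2 w), ha⟩, hmem ha⟩ : star Γ c) = ⟨w, hw⟩ := Subtype.ext hweq
          rw [h3, h4]
        rw [← h, hγc, h1]
        ring
      · have ha : Γ.Adj c (c1 w) := by rw [h]; exact hadj.symm
        have hweq : (⟨s(c, c1 w), ha⟩ : Γ.edgeSet) = w := by
          apply Subtype.ext
          show s(c, c1 w) = (w : Sym2 C)
          exact (congrArg (fun x => s(x, c1 w)) h).trans (Sym2.eq_swap.trans (h12 w).symm)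
        have h1 : γ (c1 w) = (M c 0 - M (c1 w) 0) * q ⟨w, hw⟩ 0 +
            (M c 1 - M (c1 w) 1) * q ⟨w, hw⟩ 1 := by
          have h3 : γ (c1 w) = (M c 0 - M (c1 w) 0) * q ⟨⟨s(c, c1 w), ha⟩, hmem ha⟩ 0 +
            (M c 1 - M (c1 w) 1) * q ⟨⟨s(c, c1 w), ha⟩, hmem ha⟩ 1 := dif_pos ha
          have h4 : (⟨⟨s(c, c1 w), ha⟩, hmem ha⟩ : star Γ c) = ⟨w, hw⟩ := Subtype.ext hweq
          rw [h3, h4]
        rw [← h, hγc, h1]
        ring
    refine ⟨(γ, t), ?_⟩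
    have : (fun w : star Γ c => qq c1 c2 M γ t w) = q := by
      funext ⟨w, hw⟩
      have h1 := hγ w hw
      have h2 : t w = -(M (c1 w) 1 - M (c2 w) 1) * q ⟨w, hw⟩ 0 +
        (M (c1 w) 0 - M (c2 w) 0) * q ⟨w, hw⟩ 1 := dif_pos hw
      have h3 := hN w
      have h4 : nrm c1 c2 M w = (M (c1 w) 0 - M (c2 w) 0) ^ 2 + (M (c1 w) 1 - M (c2 w) 1) ^ 2 := rfl
      funext j
      fin_cases j
      · show q0 c1 c2 M γ t w = _
        unfold q0
        rw [h1, h2, div_eq_iff h3, h4]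
        simp only [Fin.zero_eta, Fin.isValue]
        ring
      · show q1 c1 c2 M γ t w = _
        unfold q1
        rw [h1, h2, div_eq_iff h3, h4]
        simp only [Fin.mk_one, Fin.isValue]
        ring
    show InfRigid _ (fun w : star Γ c => qq c1 c2 M γ t w)
    rw [this]
    exact hq
  obtain ⟨p, h0, h1⟩ := good_and_exists g0 (good_forall g1) e0 (good_family _ g1 e1)
  exact ⟨pp c1 c2 M p.1 p.2, (mo_le c1 c2 M p.1 p.2 h12 hN h1).trans h0⟩

/-- the rank of a graph composed of plates -/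
theorem rank_plates [Fintype C] {X : SimpleGraph Γ.edgeSet} [Fintype Γ.edgeSet]
    (hX : ∀ c, GenRigid 2 (X.induce (star Γ c))) :
    3 * Γ.edgeSet.ncard + genRank 3 Γ ≤ genRank 3 X + 3 * Fintype.card C := by
  classical
  obtain ⟨p, hp⟩ := exists_mg C 3
  obtain ⟨q, hq⟩ := exists_mg Γ.edgeSet 3
  obtain ⟨P, hP⟩ := exists_plates (k := mo Γ p) ⟨p, le_rfl⟩ hX
  have h1 := genRank_add hp Γ
  have h2 := genRank_add hq X
  have h3 := hq.min X P
  have h4 : Γ.edgeSet.ncard = Fintype.card Γ.edgeSet := by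
    rw [← Nat.card_coe_set_eq, Nat.card_eq_fintype_card]
  omega

end Pool.Agent.T2h34.PL
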